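import Mathlib

/-!
A manifold from neighbourhood filters and local parametrisations.
-/

set_option autoImplicit false

namespace Pool.Agent.Helper46.PC

open Set Filter Topology

theorem exists_manifold {M E : Type} [TopologicalSpace E] [Nonempty E] (nb : M → Filter M)
    (h : ∀ p, ∃ (D : Set E) (φ : E → M), IsOpen D ∧ p ∈ φ '' D ∧ InjOn φ D ∧
      ∀ y ∈ D, map φ (𝓝 y) = nb (φ y)) :
    ∃ t : TopologicalSpace M, (∀ p, @nhds M t p = nb p) ∧ Nonempty (@ChartedSpace E _ M t) := by
  have hpure : pure ≤ nb := by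
    intro p
    obtain ⟨D, φ, hD, ⟨x, hx, rfl⟩, hinj, hmap⟩ := h p
    rw [← hmap x hx]
    calc (pure (φ x) : Filter M) = map φ (pure x) := by simp
      _ ≤ map φ (𝓝 x) := map_mono (pure_le_nhds x)
  have hopen : ∀ a, ∀ s ∈ nb a, ∀ᶠ y in nb a, s ∈ nb y := by
    intro p s hs
    obtain ⟨D, φ, hD, ⟨x, hx, rfl⟩, hinj, hmap⟩ := h p
    rw [← hmap x hx] at hs ⊢
    rw [eventually_map]
    have h1 : ∀ᶠ y in 𝓝 x, φ ⁻¹' s ∈ 𝓝 y := eventually_mem_nhds_iff.mpr (mem_map.mp hs)
    filter_upwards [h1, hD.mem_nhds hx] with y hy hyD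
    rw [← hmap y hyD]
    exact hy
  let t : TopologicalSpace M := TopologicalSpace.mkOfNhds nb
  have hnb : ∀ p, @nhds M t p = nb p := fun p => TopologicalSpace.nhds_mkOfNhds nb p hpure hopen
  refine ⟨t, hnb, ?_⟩
  have key : ∀ p, ∃ f : OpenPartialHomeomorph M E, p ∈ f.source := by
    intro p
    obtain ⟨D, φ, hD, ⟨x, hx, rfl⟩, hinj, hmap⟩ := h p
    have hmap' : ∀ y ∈ D, map φ (𝓝 y) = 𝓝 (φ y) := fun y hy => by rw [hmap y hy, hnb]
    refine ⟨{ toFun := Function.invFunOn φ D
              invFun := φ
              source := φ '' D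
              target := D
              map_source' := ?_
              map_target' := ?_
              left_inv' := ?_
              right_inv' := ?_
              continuousOn_toFun := ?_
              continuousOn_invFun := ?_
              open_source := ?_
              open_target := hD }, mem_image_of_mem φ hx⟩
    · rintro q ⟨y, hy, rfl⟩
      rw [hinj.leftInvOn_invFunOn hy]
      exact hy
    · intro y hy
      exact mem_image_of_mem φ hy
    · rintro q ⟨y, hy, rfl⟩
      rw [hinj.leftInvOn_invFunOn hy]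
    · intro y hy
      exact hinj.leftInvOn_invFunOn hy
    · rintro q ⟨y, hy, rfl⟩
      unfold ContinuousWithinAt
      rw [hinj.leftInvOn_invFunOn hy]
      have h1 : 𝓝 (φ y) = map φ (𝓝[D] y) := by
        rw [← hmap' y hy, hD.nhdsWithin_eq hy]
      refine Tendsto.mono_left ?_ nhdsWithin_le_nhds
      rw [h1, tendsto_map'_iff]
      have h2 : (Function.invFunOn φ D ∘ φ) =ᶠ[𝓝[D] y] id := by
        filter_upwards [self_mem_nhdsWithin] with w hw
        exact hinj.leftInvOn_invFunOn hw
      refine Tendsto.congr' h2.symm ?_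
      exact nhdsWithin_le_nhds
    · intro y hy
      have h1 : Tendsto φ (𝓝 y) (𝓝 (φ y)) := (hmap' y hy).le
      exact ContinuousAt.continuousWithinAt h1
    · rw [isOpen_iff_mem_nhds]
      rintro q ⟨y, hy, rfl⟩
      rw [← hmap' y hy]
      exact image_mem_map (hD.mem_nhds hy)
  choose f hf using key
  exact ⟨{ atlas := Set.range f
           chartAt := f
           mem_chart_source := hf
           chart_mem_atlas := fun p => Set.mem_range_self p }⟩

end Pool.Agent.Helper46.PC
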