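import Mathlib

/-!
Decimal codes.  `dig σ c` is the digit sequence `3, (1 or 2), c₀, c₁, ...` with `cᵢ ∈ {4, 5}`.
-/

set_option autoImplicit false

namespace Pool.Agent.Helper46.PC

open Set Filter Topology

/-- the digit sequence of a foot: marker `3`, a side digit, then the code digits `4`/`5`. -/
def dig (σ : Bool) (c : ℕ → Bool) : ℕ → Fin 10
  | 0 => 3
  | 1 => if σ then 2 else 1
  | (t + 2) => if c t then 5 else 4

/-- the real number `0.d₀d₁d₂…`. -/
noncomputable def xr (d : ℕ → Fin 10) : ℝ := Real.ofDigits d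

/-- shift of a sequence. -/
def sh (d : ℕ → Fin 10) (i : ℕ) : ℕ → Fin 10 := fun n => d (n + i)

lemma xr_step (d : ℕ → Fin 10) : 10 * xr d = ((d 0 : Fin 10) : ℕ) + xr (sh d 1) := by
  unfold xr sh
  rw [Real.ofDigits_eq_sum_add_ofDigits d 1]
  simp [Real.ofDigitsTerm]
  ring

lemma xr_nonneg (d : ℕ → Fin 10) : 0 ≤ xr d := Real.ofDigits_nonneg d
lemma xr_le_one (d : ℕ → Fin 10) : xr d ≤ 1 := Real.ofDigits_le_one d

/-- all digits interior -/
def Inter (d : ℕ → Fin 10) : Prop := ∀ n, 1 ≤ ((d n : Fin 10) : ℕ) ∧ ((d n : Fin 10) : ℕ) ≤ 8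

lemma xr_lb {d : ℕ → Fin 10} (hd : Inter d) : 1 / 10 ≤ xr d := by
  have h := xr_step d
  have h1 := (hd 0).1
  have h2 := xr_nonneg (sh d 1)
  have h3 : (1 : ℝ) ≤ ((d 0 : Fin 10) : ℕ) := by exact_mod_cast h1
  linarith

lemma xr_ub {d : ℕ → Fin 10} (hd : Inter d) : xr d ≤ 9 / 10 := by
  have h := xr_step d
  have h1 := (hd 0).2
  have h2 := xr_le_one (sh d 1)
  have h3 : (((d 0 : Fin 10) : ℕ) : ℝ) ≤ 8 := by exact_mod_cast h1
  linarith

lemma Inter.sh {d : ℕ → Fin 10} (hd : Inter d) (i : ℕ) : Inter (sh d i) := fun n => hd (n + i)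

lemma dig_inter (σ : Bool) (c : ℕ → Bool) : Inter (dig σ c) := by
  intro n
  match n with
  | 0 => simp [dig]
  | 1 => cases σ <;> simp [dig]
  | (t + 2) =>
    by_cases h : c t <;> simp [dig, h]

/-- the integer with digits `j` followed by `d₀ … d_{i-1}` -/
def Pi (j : ℤ) (d : ℕ → Fin 10) : ℕ → ℤ
  | 0 => j
  | (i + 1) => 10 * Pi j d i + ((d i : Fin 10) : ℕ)

lemma Pi_spec (j : ℤ) (d : ℕ → Fin 10) (i : ℕ) :
    (10 : ℝ) ^ i * (j + xr d) = Pi j d i + xr (sh d i) := by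
  induction i with
  | zero =>
    have h0 : sh d 0 = d := rfl
    rw [h0]; simp [Pi]
  | succ i ih =>
    have h := xr_step (sh d i)
    have h2 : sh (sh d i) 1 = sh d (i + 1) := by
      funext n; simp [sh]; congr 1; ring
    rw [h2] at h
    have h3 : sh d i 0 = d i := by simp [sh]
    rw [h3] at h
    rw [pow_succ', mul_assoc, ih]
    simp only [Pi]
    push_cast
    linarith

lemma Pi_inj {j j' : ℤ} {d d' : ℕ → Fin 10} (h0 : d 0 = 3) (h0' : d' 0 = 3)
    (hd : ∀ i, d (i + 1) ≠ 3) (hd' : ∀ i, d' (i + 1) ≠ 3) :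
    ∀ i i' : ℕ, Pi j d (i + 1) = Pi j' d' (i' + 1) → i = i' ∧ j = j' ∧ ∀ l ≤ i, d l = d' l := by
  intro i
  induction i with
  | zero =>
    intro i' h
    simp only [Pi] at h
    have hlt := (d' i').isLt
    have hlt0 := (d 0).isLt
    have e1 : ((d 0 : Fin 10) : ℕ) = ((d' i' : Fin 10) : ℕ) := by omega
    have e2 : d 0 = d' i' := Fin.ext e1
    have e3 : i' = 0 := by
      rcases i' with _ | i'
      · rfl
      · exact absurd (e2 ▸ h0 : d' (i' + 1) = 3) (hd' i')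
    subst e3
    simp only [Pi] at h
    refine ⟨rfl, by omega, ?_⟩
    intro l hl
    have : l = 0 := by omega
    subst this
    exact e2
  | succ i ih =>
    intro i' h
    rw [Pi, Pi.eq_def j' d' (i' + 1)] at h
    simp only at h
    have hlt := (d' i').isLt
    have hlt0 := (d (i + 1)).isLt
    have e1 : ((d (i + 1) : Fin 10) : ℕ) = ((d' i' : Fin 10) : ℕ) := by omega
    have e2 : d (i + 1) = d' i' := Fin.ext e1
    rcases i' with _ | i'
    · exact absurd (e2.trans h0') (hd i)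
    · have e4 : Pi j d (i + 1) = Pi j' d' (i' + 1) := by omega
      obtain ⟨a, b, c⟩ := ih i' e4
      subst a
      refine ⟨rfl, b, ?_⟩
      intro l hl
      rcases Nat.lt_or_ge l (i + 1) with hl2 | hl2
      · exact c l (by omega)
      · have : l = i + 1 := by omega
        subst this
        exact e2

lemma dig_zero (σ : Bool) (c : ℕ → Bool) : dig σ c 0 = 3 := rfl

lemma dig_succ_ne (σ : Bool) (c : ℕ → Bool) (i : ℕ) : dig σ c (i + 1) ≠ 3 := by
  match i with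
  | 0 => cases σ <;> simp [dig]
  | (t + 1) =>
    by_cases h : c t <;> simp [dig, h]

/-- the decoding relation: `Q` is `j` followed by at least `t + 3` digits of a code with `c t = b`. -/
def Dec (Q : ℤ) (t : ℕ) (b : Bool) : Prop :=
  ∃ (j : ℤ) (σ : Bool) (c : ℕ → Bool) (i : ℕ), t + 3 ≤ i ∧ Q = Pi j (dig σ c) i ∧ c t = b

lemma Dec_unique {Q : ℤ} {t : ℕ} {b b' : Bool} (h : Dec Q t b) (h' : Dec Q t b') : b = b' := by
  obtain ⟨j, σ, c, i, hi, hQ, hc⟩ := h
  obtain ⟨j', σ', c', i', hi', hQ', hc'⟩ := h'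
  obtain ⟨i0, rfl⟩ : ∃ i0, i = i0 + 1 := ⟨i - 1, by omega⟩
  obtain ⟨i0', rfl⟩ : ∃ i0, i' = i0 + 1 := ⟨i' - 1, by omega⟩
  obtain ⟨a1, a2, a3⟩ := Pi_inj (dig_zero σ c) (dig_zero σ' c') (dig_succ_ne σ c)
    (dig_succ_ne σ' c') i0 i0' (hQ.symm.trans hQ')
  have h4 := a3 (t + 2) (by omega)
  simp only [dig] at h4
  rw [← hc, ← hc']
  by_cases h5 : c t <;> by_cases h6 : c' t <;> simp [h5, h6] at h4 ⊢

open Classical in
/-- decoded code digits. -/
noncomputable def Gd (Q : ℤ) (t : ℕ) : Bool := decide (Dec Q t true)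

lemma Gd_spec (j : ℤ) (σ : Bool) (c : ℕ → Bool) (i t : ℕ) (hi : t + 3 ≤ i) :
    Gd (Pi j (dig σ c) i) t = c t := by
  have h : Dec (Pi j (dig σ c) i) t (c t) := ⟨j, σ, c, i, hi, rfl, rfl⟩
  unfold Gd
  by_cases h5 : c t
  · rw [h5] at h ⊢
    simp [h]
  · have h5' : c t = false := by simpa using h5
    rw [h5'] at h ⊢
    simp only [decide_eq_false_iff_not]
    intro h6
    exact absurd (Dec_unique h h6) (by simp)

/-- the foot of the apex `z = (m, j)` with side `σ` and code `c`. -/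
noncomputable def ft (z : ℤ × ℤ) (σ : Bool) (c : ℕ → Bool) : ℝ :=
  (z.2 + xr (dig σ c)) * (10 : ℝ) ^ (-z.1)

/-- the scale of the apex `z = (m, j)`. -/
noncomputable def sc (z : ℤ × ℤ) : ℝ := (10 : ℝ) ^ (-z.1)

lemma sc_pos (z : ℤ × ℤ) : 0 < sc z := by unfold sc; positivity

lemma xr_diff (c : ℕ → Bool) : xr (dig true c) - xr (dig false c) = 1 / 100 := by
  have h1 := xr_step (dig true c)
  have h2 := xr_step (sh (dig true c) 1)
  have h3 := xr_step (dig false c)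
  have h4 := xr_step (sh (dig false c) 1)
  have h5 : sh (sh (dig true c) 1) 1 = sh (sh (dig false c) 1) 1 := by
    funext n; simp [sh, dig]
  rw [← h5] at h4
  simp only [sh, dig] at h1 h2 h3 h4
  norm_num at h1 h2 h3 h4
  linarith

lemma ft_diff (z : ℤ × ℤ) (c : ℕ → Bool) : ft z true c - ft z false c = sc z / 100 := by
  unfold ft sc
  have := xr_diff c
  rw [← sub_mul]
  have h : ((z.2 : ℝ) + xr (dig true c) - (z.2 + xr (dig false c))) = 1 / 100 := by linarith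
  rw [h]; ring

/-- Decoding lemma. -/
lemma decode {z z' : ℤ × ℤ} {σ σ' : Bool} {c c' : ℕ → Bool} {q t : ℕ}
    (hlev : z.1 + q + t + 3 ≤ z'.1)
    (hnear : |ft z σ c - ft z' σ' c'| ≤ 10 ^ q / 100 * sc z') :
    Gd (z'.2 / 10 ^ q) t = c t := by
  obtain ⟨m, j⟩ := z
  obtain ⟨m', j'⟩ := z'
  simp only at hlev hnear ⊢
  obtain ⟨i, hi⟩ : ∃ i : ℕ, m' = m + i + q := ⟨(m' - m - q).toNat, by omega⟩
  have hit : t + 3 ≤ i := by omega
  have hP := Pi_spec j (dig σ c) i
  have hx1 := xr_lb ((dig_inter σ c).sh i)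
  have hx2 := xr_ub ((dig_inter σ c).sh i)
  have hy1 := xr_lb (dig_inter σ' c')
  have hy2 := xr_ub (dig_inter σ' c')
  have hq : (0 : ℝ) < 10 ^ q := by positivity
  have hmi : (0 : ℝ) < (10 : ℝ) ^ (m + i) := by positivity
  have e1 : ft (m, j) σ c * (10 : ℝ) ^ (m + i) = Pi j (dig σ c) i + xr (sh (dig σ c) i) := by
    rw [← hP]
    simp only [ft]
    rw [mul_assoc, ← zpow_add₀ (by norm_num)]
    have : -m + (m + (i : ℤ)) = i := by ring
    rw [this, zpow_natCast]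
    ring
  have e2 : ft (m', j') σ' c' * (10 : ℝ) ^ (m + i) = (j' + xr (dig σ' c')) / 10 ^ q := by
    simp only [ft]
    rw [mul_assoc, ← zpow_add₀ (by norm_num)]
    have : -m' + (m + (i : ℤ)) = -(q : ℤ) := by omega
    rw [this, zpow_neg, zpow_natCast]
    rfl
  have e3 : sc (m', j') * (10 : ℝ) ^ (m + i) = 1 / 10 ^ q := by
    simp only [sc]
    rw [← zpow_add₀ (by norm_num)]
    have : -m' + (m + (i : ℤ)) = -(q : ℤ) := by omega
    rw [this, zpow_neg, zpow_natCast]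
    simp
  have hn2 : |(Pi j (dig σ c) i + xr (sh (dig σ c) i)) - (j' + xr (dig σ' c')) / 10 ^ q| ≤ 1 / 100 := by
    rw [← e1, ← e2, ← sub_mul, abs_mul, abs_of_pos hmi]
    calc |ft (m, j) σ c - ft (m', j') σ' c'| * (10 : ℝ) ^ (m + i)
        ≤ (10 ^ q / 100 * sc (m', j')) * (10 : ℝ) ^ (m + i) := by gcongr
      _ = 10 ^ q / 100 * (sc (m', j') * (10 : ℝ) ^ (m + i)) := by ring
      _ = 1 / 100 := by rw [e3]; field_simp
  rw [abs_le] at hn2
  set A : ℤ := Pi j (dig σ c) i with hA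
  have h1 : ((j' : ℝ) + xr (dig σ' c')) / 10 ^ q < A + 1 := by linarith
  have h2 : (A : ℝ) < ((j' : ℝ) + xr (dig σ' c')) / 10 ^ q := by linarith
  rw [div_lt_iff₀ hq] at h1
  rw [lt_div_iff₀ hq] at h2
  have h3 : (j' : ℤ) < (A + 1) * 10 ^ q := by
    have : (j' : ℝ) < (A + 1) * 10 ^ q := by linarith
    exact_mod_cast this
  have h4 : A * 10 ^ q < j' + 1 := by
    have : (A : ℝ) * 10 ^ q < j' + 1 := by linarith
    exact_mod_cast this
  have h5 : j' / 10 ^ q = A := by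
    have hq' : (0 : ℤ) < 10 ^ q := by positivity
    apply le_antisymm
    · have := (Int.ediv_lt_iff_lt_mul hq').mpr h3
      omega
    · exact (Int.le_ediv_iff_mul_le hq').mpr (by omega)
  rw [h5, hA]
  exact Gd_spec j σ c i t hit

end Pool.Agent.Helper46.PC
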