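import Pool.Agent.Helper46.PC.Code

/-!
Combinatorics of apex sequences.
-/

set_option autoImplicit false

namespace Pool.Agent.Helper46.PC

open Set Filter Topology

/-- apex sequences -/
abbrev Sq := ℕ → ℤ × ℤ

/-- abscissa of an apex -/
noncomputable def yp (z : ℤ × ℤ) : ℝ := z.2 * (10 : ℝ) ^ (-z.1)

lemma yp_ft (z : ℤ × ℤ) (σ : Bool) (c : ℕ → Bool) : |yp z - ft z σ c| ≤ sc z := by
  unfold yp ft sc
  have h1 := xr_nonneg (dig σ c)
  have h2 := xr_le_one (dig σ c)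
  rw [← sub_mul, abs_mul, abs_of_pos (show (0 : ℝ) < (10 : ℝ) ^ (-z.1) by positivity)]
  have : |(z.2 : ℝ) - (z.2 + xr (dig σ c))| ≤ 1 := by
    rw [abs_le]; constructor <;> linarith
  calc _ ≤ 1 * (10 : ℝ) ^ (-z.1) := by gcongr
    _ = _ := one_mul _

lemma sc_le {z z' : ℤ × ℤ} {K : ℕ} (h : z'.1 ≤ z.1 + K) : sc z ≤ 10 ^ K * sc z' := by
  unfold sc
  rw [← zpow_natCast, ← zpow_add₀ (by norm_num)]
  exact zpow_le_zpow_right₀ (by norm_num) (by omega)

lemma lt_of_sc {z z' : ℤ × ℤ} (h : sc z < sc z') : z'.1 < z.1 := by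
  unfold sc at h
  have := (zpow_lt_zpow_iff_right₀ (show (1 : ℝ) < 10 by norm_num)).mp h
  omega

lemma ft_inj {z z' : ℤ × ℤ} {σ σ' : Bool} {c c' : ℕ → Bool} (h : ft z σ c = ft z' σ' c') :
    z = z' ∧ σ = σ' ∧ c = c' := by
  wlog hle : z.1 ≤ z'.1 generalizing z z' σ σ' c c'
  · obtain ⟨a1, a2, a3⟩ := this h.symm (by omega)
    exact ⟨a1.symm, a2.symm, a3.symm⟩
  obtain ⟨m, j⟩ := z
  obtain ⟨m', j'⟩ := z'
  simp only at hle
  obtain ⟨i, hi⟩ : ∃ i : ℕ, m' = m + i := ⟨(m' - m).toNat, by omega⟩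
  have key : ∀ n : ℕ, Pi j (dig σ c) (i + n) = Pi j' (dig σ' c') n := by
    intro n
    have hP := Pi_spec j (dig σ c) (i + n)
    have hP' := Pi_spec j' (dig σ' c') n
    have hx1 := xr_lb ((dig_inter σ c).sh (i + n))
    have hx2 := xr_ub ((dig_inter σ c).sh (i + n))
    have hy1 := xr_lb ((dig_inter σ' c').sh n)
    have hy2 := xr_ub ((dig_inter σ' c').sh n)
    have e1 : ft (m, j) σ c * (10 : ℝ) ^ (m' + n) = (10 : ℝ) ^ (i + n) * (j + xr (dig σ c)) := by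
      simp only [ft]
      rw [mul_assoc, ← zpow_add₀ (by norm_num)]
      have : -m + (m' + (n : ℤ)) = ((i + n : ℕ) : ℤ) := by push_cast; omega
      rw [this, zpow_natCast]
      ring
    have e2 : ft (m', j') σ' c' * (10 : ℝ) ^ (m' + n) = (10 : ℝ) ^ n * (j' + xr (dig σ' c')) := by
      simp only [ft]
      rw [mul_assoc, ← zpow_add₀ (by norm_num)]
      have : -m' + (m' + (n : ℤ)) = (n : ℤ) := by omega
      rw [this, zpow_natCast]
      ring
    have e3 : (Pi j (dig σ c) (i + n) : ℝ) + xr (sh (dig σ c) (i + n))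
        = Pi j' (dig σ' c') n + xr (sh (dig σ' c') n) := by
      rw [← hP, ← hP', ← e1, ← e2, h]
    have e4 : (Pi j (dig σ c) (i + n) : ℝ) < Pi j' (dig σ' c') n + 1 := by linarith
    have e5 : (Pi j' (dig σ' c') n : ℝ) < Pi j (dig σ c) (i + n) + 1 := by linarith
    have e4' : Pi j (dig σ c) (i + n) < Pi j' (dig σ' c') n + 1 := by exact_mod_cast e4
    have e5' : Pi j' (dig σ' c') n < Pi j (dig σ c) (i + n) + 1 := by exact_mod_cast e5
    omega
  have h1 := Pi_inj (dig_zero σ c) (dig_zero σ' c') (dig_succ_ne σ c) (dig_succ_ne σ' c')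
    (i + 0) 0 (key 1)
  have hi0 : i = 0 := by omega
  subst hi0
  have hj : j = j' := h1.2.1
  have hdig : ∀ l, dig σ c l = dig σ' c' l := by
    intro l
    have h2 := Pi_inj (dig_zero σ c) (dig_zero σ' c') (dig_succ_ne σ c) (dig_succ_ne σ' c')
      (0 + l) l (by have := key (l + 1); rw [← add_assoc] at this; exact this)
    exact h2.2.2 l (by omega)
  refine ⟨?_, ?_, ?_⟩
  · rw [hj]; congr 1; omega
  · have h3 := hdig 1
    simp only [dig] at h3
    by_cases h5 : σ <;> by_cases h6 : σ' <;> simp [h5, h6] at h3 ⊢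
  · funext t
    have h4 := hdig (t + 2)
    simp only [dig] at h4
    by_cases h5 : c t <;> by_cases h6 : c' t <;> simp [h5, h6] at h4 ⊢

/-- the line sequence of `b` (with code `cb`) captures the apex sequence `a`. -/
def Capt (a b : Sq) (cb : ℕ → Bool) : Prop :=
  ∃ C : ℝ, ∃ᶠ i in atTop, ∃ k σ, sc (a i) ≤ C * sc (b k) ∧
    |yp (a i) - ft (b k) σ cb| ≤ C * sc (a i)

/-- two apexes at distance at most `K`. -/
def Close (K : ℝ) (z z' : ℤ × ℤ) : Prop :=
  sc z ≤ K * sc z' ∧ sc z' ≤ K * sc z ∧ |yp z - yp z'| ≤ K * sc z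

/-- limit codes of `s` -/
def Bad (s : Sq) : Set (ℕ → Bool) :=
  {c | ∃ q : ℕ, ∀ t, ∀ᶠ k in atTop, Gd ((s k).2 / 10 ^ q) t = c t}

def Good (s : Sq) : Prop :=
  (∀ q : ℕ, ∃ c : ℕ → Bool, ∀ t, ∀ᶠ k in atTop, Gd ((s k).2 / 10 ^ q) t = c t) ∧
  (∀ K : ℝ, ∃ N : ℕ, ∀ k l, N ≤ k → N ≤ l → k ≠ l → ¬ Close K (s k) (s l)) ∧
  Function.Injective s

lemma Bad_countable (s : Sq) : (Bad s).Countable := by
  have : Bad s = ⋃ q : ℕ, {c | ∀ t, ∀ᶠ k in atTop, Gd ((s k).2 / 10 ^ q) t = c t} := by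
    ext c; simp [Bad]
  rw [this]
  apply countable_iUnion
  intro q
  apply Set.Subsingleton.countable
  intro c hc c' hc'
  funext t
  obtain ⟨k, hk1, hk2⟩ := ((hc t).and (hc' t)).exists
  exact hk1.symm.trans hk2

/-- key lemma -/
lemma key_near {s : Sq} (hs : Good s) {c : ℕ → Bool} (hc : c ∉ Bad s) (q : ℕ) :
    ∃ K N : ℕ, ∀ k, N ≤ k → ∀ z σ σ' c', |ft z σ c - ft (s k) σ' c'| ≤ 10 ^ q / 100 * sc (s k) →
      (s k).1 ≤ z.1 + K := by
  obtain ⟨c0, hc0⟩ := hs.1 q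
  have hne : c ≠ c0 := by
    rintro rfl
    exact hc ⟨q, hc0⟩
  obtain ⟨t, ht⟩ : ∃ t, c t ≠ c0 t := by
    by_contra h
    push Not at h
    exact hne (funext h)
  obtain ⟨N, hN⟩ := eventually_atTop.mp (hc0 t)
  refine ⟨q + t + 3, N, ?_⟩
  intro k hk z σ σ' c' hnear
  by_contra hcon
  have h1 := decode (t := t) (by push_cast at hcon; omega) hnear
  rw [hN k hk] at h1
  exact ht h1.symm

lemma exists_q (C : ℝ) : ∃ q : ℕ, C ≤ 10 ^ q / 100 := by
  obtain ⟨q, hq⟩ := pow_unbounded_of_one_lt (100 * C) (show (1 : ℝ) < 10 by norm_num)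
  exact ⟨q, by linarith⟩

/-- F4, different sequences -/
lemma F4_lt {a b : Sq} {ca cb : ℕ → Bool} (hb : Good b) (hbad : ca ∉ Bad b)
    (hcap : ¬ Capt a b cb) (C : ℝ) (hC : 0 ≤ C) :
    ∃ N : ℕ, ∀ k l, N ≤ k → N ≤ l → ∀ σ σ',
      C * min (sc (a k)) (sc (b l)) < |ft (a k) σ ca - ft (b l) σ' cb| := by
  obtain ⟨q, hq⟩ := exists_q C
  obtain ⟨K, N0, hK⟩ := key_near hb hbad q
  by_contra hcon
  push Not at hcon
  apply hcap
  refine ⟨max (10 ^ K) (1 + C), ?_⟩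
  rw [frequently_atTop]
  intro M
  obtain ⟨k, l, hk, hl, σ, σ', h⟩ := hcon (max M N0)
  refine ⟨k, le_trans (le_max_left _ _) hk, l, σ', ?_, ?_⟩
  · have h1 : |ft (a k) σ ca - ft (b l) σ' cb| ≤ 10 ^ q / 100 * sc (b l) := by
      refine h.trans ?_
      have := min_le_right (sc (a k)) (sc (b l))
      have h2 := sc_pos (b l)
      calc C * min (sc (a k)) (sc (b l)) ≤ C * sc (b l) := by gcongr
        _ ≤ _ := by gcongr
    have h2 := hK l (le_trans (le_max_right _ _) hl) (a k) σ σ' cb h1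
    have h3 := sc_le h2
    have h4 := sc_pos (b l)
    refine h3.trans ?_
    gcongr
    exact le_max_left _ _
  · have h1 := yp_ft (a k) σ ca
    have h2 := sc_pos (a k)
    have h3 : |ft (a k) σ ca - ft (b l) σ' cb| ≤ C * sc (a k) := by
      refine h.trans ?_
      gcongr
      exact min_le_left _ _
    calc |yp (a k) - ft (b l) σ' cb| ≤ |yp (a k) - ft (a k) σ ca| + |ft (a k) σ ca - ft (b l) σ' cb| :=
          abs_sub_le _ _ _
      _ ≤ sc (a k) + C * sc (a k) := by gcongr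
      _ = (1 + C) * sc (a k) := by ring
      _ ≤ _ := by gcongr; exact le_max_right _ _

/-- F4, same sequence -/
lemma F4_self {a : Sq} {ca : ℕ → Bool} (ha : Good a) (hbad : ca ∉ Bad a) (C : ℝ) (hC : 0 ≤ C) :
    ∃ N : ℕ, ∀ k l, N ≤ k → N ≤ l → k ≠ l → ∀ σ σ',
      C * min (sc (a k)) (sc (a l)) < |ft (a k) σ ca - ft (a l) σ' ca| := by
  obtain ⟨q, hq⟩ := exists_q C
  obtain ⟨K, N0, hK⟩ := key_near ha hbad q
  obtain ⟨N1, hN1⟩ := ha.2.1 (10 ^ K + 1 + C)
  refine ⟨max N0 N1, ?_⟩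
  intro k l hk hl hkl σ σ'
  by_contra hcon
  push Not at hcon
  apply hN1 k l (le_trans (le_max_right _ _) hk) (le_trans (le_max_right _ _) hl) hkl
  have pk := sc_pos (a k)
  have pl := sc_pos (a l)
  have hKp : (0 : ℝ) < 10 ^ K := by positivity
  have hk1 : |ft (a k) σ ca - ft (a l) σ' ca| ≤ C * sc (a k) :=
    hcon.trans (by gcongr; exact min_le_left _ _)
  have hl1 : |ft (a k) σ ca - ft (a l) σ' ca| ≤ C * sc (a l) :=
    hcon.trans (by gcongr; exact min_le_right _ _)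
  have h1 : sc (a k) ≤ 10 ^ K * sc (a l) :=
    sc_le (hK l (le_trans (le_max_left _ _) hl) (a k) σ σ' ca (hl1.trans (by gcongr)))
  have h2 : sc (a l) ≤ 10 ^ K * sc (a k) :=
    sc_le (hK k (le_trans (le_max_left _ _) hk) (a l) σ' σ ca
      (by rw [abs_sub_comm]; exact hk1.trans (by gcongr)))
  refine ⟨?_, ?_, ?_⟩
  · nlinarith
  · nlinarith
  · have e1 := yp_ft (a k) σ ca
    have e2 := yp_ft (a l) σ' ca
    calc |yp (a k) - yp (a l)| ≤ |yp (a k) - ft (a k) σ ca| + |ft (a k) σ ca - yp (a l)| :=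
          abs_sub_le _ _ _
      _ ≤ |yp (a k) - ft (a k) σ ca| + (|ft (a k) σ ca - ft (a l) σ' ca| +
          |ft (a l) σ' ca - yp (a l)|) := by gcongr; exact abs_sub_le _ _ _
      _ ≤ sc (a k) + (C * sc (a k) + 10 ^ K * sc (a k)) := by
          gcongr
          rw [abs_sub_comm]
          exact e2.trans h2
      _ = (10 ^ K + 1 + C) * sc (a k) := by ring

lemma sc_ge_finite (C : ℝ) (hC : 0 < C) :
    {z : ℤ × ℤ | 1 / C ≤ sc z ∧ ∃ σ c, |ft z σ c| ≤ C}.Finite := by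
  obtain ⟨n, hn⟩ := pow_unbounded_of_one_lt (10 * C) (show (1 : ℝ) < 10 by norm_num)
  have hn1 : C < 10 ^ n := by linarith
  obtain ⟨M, hM⟩ := exists_nat_gt (C * C + 1)
  apply Set.Finite.subset
    (Set.Finite.prod (Set.finite_Icc (-(n : ℤ)) n) (Set.finite_Icc (-(M : ℤ)) M))
  rintro ⟨m, j⟩ ⟨h1, σ, c, h2⟩
  simp only [ft, sc] at h1 h2
  have hp : (0 : ℝ) < (10 : ℝ) ^ (-m) := by positivity
  have hx1 := xr_lb (dig_inter σ c)
  have hx2 := xr_ub (dig_inter σ c)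
  rw [abs_mul, abs_of_pos hp] at h2
  have h3 : 1 / 10 ≤ |(j : ℝ) + xr (dig σ c)| := by
    rcases le_or_gt 0 j with hj | hj
    · have : (0 : ℝ) ≤ j := by exact_mod_cast hj
      rw [abs_of_nonneg (by linarith)]
      linarith
    · have : (j : ℝ) ≤ -1 := by exact_mod_cast (show j ≤ -1 by omega)
      rw [abs_of_nonpos (by linarith)]
      linarith
  have h4 : (10 : ℝ) ^ (-m) ≤ 10 * C := by nlinarith
  have h5 : |(j : ℝ) + xr (dig σ c)| ≤ C * C := by
    have : 1 ≤ C * (10 : ℝ) ^ (-m) := by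
      rw [div_le_iff₀ hC] at h1; linarith
    have h6 : |(j : ℝ) + xr (dig σ c)| * 1 ≤ |(j : ℝ) + xr (dig σ c)| * (C * (10 : ℝ) ^ (-m)) := by
      gcongr
    nlinarith
  rw [abs_le] at h5
  have hm1 : -m < n := by
    have : (10 : ℝ) ^ (-m) < (10 : ℝ) ^ (n : ℤ) := by
      rw [zpow_natCast]; linarith
    exact (zpow_lt_zpow_iff_right₀ (by norm_num)).mp this
  have hm2 : m < n := by
    have h7 : 1 / (10 : ℝ) ^ n < (10 : ℝ) ^ (-m) := by
      refine lt_of_lt_of_le ?_ h1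
      gcongr
    have h8 : (10 : ℝ) ^ (-(n : ℤ)) < (10 : ℝ) ^ (-m) := by
      rw [zpow_neg, zpow_natCast]
      rw [one_div] at h7
      exact h7
    have := (zpow_lt_zpow_iff_right₀ (show (1 : ℝ) < 10 by norm_num)).mp h8
    omega
  have hj1 : (j : ℝ) < M := by linarith
  have hj2 : (-(M : ℝ)) < j := by linarith
  have hj1' : j < M := by exact_mod_cast hj1
  have hj2' : -(M : ℤ) < j := by exact_mod_cast hj2
  simp only [mem_prod, mem_Icc]
  constructor <;> constructor <;> omega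

lemma Good.eventually_ne {a : Sq} (ha : Good a) (z : ℤ × ℤ) : ∀ᶠ k in atTop, a k ≠ z := by
  obtain ⟨N, hN⟩ := ha.2.1 1
  by_contra hcon
  rw [not_eventually] at hcon
  obtain ⟨k, hk, hkz⟩ := (frequently_atTop.mp hcon) N
  obtain ⟨l, hl, hlz⟩ := (frequently_atTop.mp hcon) (k + 1)
  push Not at hkz hlz
  apply hN k l hk (by omega) (by omega)
  rw [hkz, hlz]
  refine ⟨by simp, by simp, ?_⟩
  simp [(sc_pos z).le]

lemma Good.eventually_notMem {a : Sq} (ha : Good a) {S : Set (ℤ × ℤ)} (hS : S.Finite) :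
    ∀ᶠ k in atTop, a k ∉ S := by
  have h : ∀ᶠ k in atTop, ∀ z ∈ S, a k ≠ z := by
    rw [hS.eventually_all]
    intro z _
    exact ha.eventually_ne z
  filter_upwards [h] with k hk hmem
  exact hk _ hmem rfl

/-- F2 -/
lemma F2 {a : Sq} (ha : Good a) (ca : ℕ → Bool) (C : ℝ) (hC : 0 < C) :
    ∀ᶠ k in atTop, ∀ σ, 1 / C ≤ sc (a k) → C < |ft (a k) σ ca| := by
  filter_upwards [ha.eventually_notMem (sc_ge_finite C hC)] with k hk σ h
  by_contra hcon
  push Not at hcon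
  exact hk ⟨h, σ, ca, hcon⟩

/-- small scale near a fixed point -/
lemma small_of_near {a : Sq} (ha : Good a) (ca : ℕ → Bool) (e C δ : ℝ) (hC : 0 ≤ C) (hδ : 0 < δ) :
    ∀ᶠ k in atTop, ∀ σ, |ft (a k) σ ca - e| ≤ C * min (sc (a k)) 1 → sc (a k) < δ := by
  have hpos : 0 < |e| + C + 1 / δ := by positivity
  filter_upwards [F2 ha ca (|e| + C + 1 / δ) hpos] with k hk σ h
  by_contra hcon
  push Not at hcon
  have h1 : 1 / (|e| + C + 1 / δ) ≤ sc (a k) := by
    refine le_trans ?_ hcon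
    rw [div_le_iff₀ hpos]
    have : δ * (1 / δ) = 1 := by field_simp
    have h2 : 0 ≤ δ * (|e| + C) := by positivity
    nlinarith
  have h2 := hk σ h1
  have h3 : |ft (a k) σ ca| ≤ |e| + C := by
    have h4 : |ft (a k) σ ca| ≤ |ft (a k) σ ca - e| + |e| := by
      calc |ft (a k) σ ca| = |(ft (a k) σ ca - e) + e| := by ring_nf
        _ ≤ _ := abs_add_le _ _
    have h5 : C * min (sc (a k)) 1 ≤ C * 1 := by gcongr; exact min_le_right _ _
    linarith
  have : 0 < 1 / δ := by positivity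
  linarith

/-- F3, foot of an earlier line versus a later sequence -/
lemma F3_lt {a b : Sq} {ca cb : ℕ → Bool} (ha : Good a) (hcap : ¬ Capt a b cb) (l : ℕ) (σ' : Bool)
    (C : ℝ) (hC : 0 ≤ C) :
    ∀ᶠ k in atTop, ∀ σ, C * min (sc (a k)) 1 < |ft (a k) σ ca - ft (b l) σ' cb| := by
  by_contra hcon
  rw [not_eventually] at hcon
  apply hcap
  refine ⟨1 + C, ?_⟩
  refine (hcon.and_eventually
    (small_of_near ha ca (ft (b l) σ' cb) C (sc (b l)) hC (sc_pos _))).mono ?_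
  rintro k ⟨h1, h2⟩
  push Not at h1
  obtain ⟨σ, hσ⟩ := h1
  have h3 := h2 σ hσ
  have pk := sc_pos (a k)
  have pl := sc_pos (b l)
  refine ⟨l, σ', ?_, ?_⟩
  · nlinarith
  · have e1 := yp_ft (a k) σ ca
    calc |yp (a k) - ft (b l) σ' cb| ≤ |yp (a k) - ft (a k) σ ca| + |ft (a k) σ ca - ft (b l) σ' cb| :=
          abs_sub_le _ _ _
      _ ≤ sc (a k) + C * sc (a k) := by
          gcongr
          exact hσ.trans (by gcongr; exact min_le_left _ _)
      _ = (1 + C) * sc (a k) := by ring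

/-- F3, foot of a later (or the same) line versus a sequence -/
lemma F3_ge {a b : Sq} {ca cb : ℕ → Bool} (ha : Good a) (hbad : cb ∉ Bad a) (l : ℕ) (σ' : Bool)
    (C : ℝ) (hC : 0 ≤ C) :
    ∀ᶠ k in atTop, ∀ σ, C * min (sc (a k)) 1 < |ft (a k) σ ca - ft (b l) σ' cb| := by
  obtain ⟨q, hq⟩ := exists_q C
  obtain ⟨K, N0, hK⟩ := key_near ha hbad q
  have pl := sc_pos (b l)
  have hKp : (0 : ℝ) < 10 ^ K := by positivity
  filter_upwards [eventually_ge_atTop N0,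
    small_of_near ha ca (ft (b l) σ' cb) C (sc (b l) / 10 ^ K) hC (by positivity)] with k hk h2 σ
  by_contra hcon
  push Not at hcon
  have pk := sc_pos (a k)
  have h3 := h2 σ hcon
  have h4 : |ft (b l) σ' cb - ft (a k) σ ca| ≤ 10 ^ q / 100 * sc (a k) := by
    rw [abs_sub_comm]
    refine hcon.trans ?_
    calc C * min (sc (a k)) 1 ≤ C * sc (a k) := by gcongr; exact min_le_left _ _
      _ ≤ _ := by gcongr
  have h5 := sc_le (hK k hk (b l) σ' σ ca h4)
  rw [lt_div_iff₀ hKp] at h3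
  linarith

end Pool.Agent.Helper46.PC
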