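import Pool.Agent.Helper46.PC.Sep

/-!
The surface is Hausdorff, connected, pseudocompact and not countably compact.

Overview of the construction (all in ZFC).  The surface consists of one open half-plane `H` (which is dense,
so the surface is even separable) and of lines `(a, n) × ℝ`, where `a` runs through a set `A` of sequences of
geodesics `(L (a, k))_k` of `H` with pairwise distinct real feet.  The line `(a, n)`, `n > 0`, joins the right
foot of `L (a, n - 1)` to the left foot of `L (a, n)` (as in the surface of Pruefer); the line `(a, 0)` has the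
left foot of `L (a, 0)` on its right side, and on its left side it is the limit of the strips around `L (a, k)`,
`k → ∞`.  The set `A` and the feet are found by recursion of length continuum over all sequences of points
(apexes) of a countable net of `H` (files `Code`, `Comb`, `Rec`): the feet of the lines of the sequence `a` have
decimal expansions `position of the apex, 3, 1 or 2, code c(a)`, and the code `c(a)` avoids, for all earlier
sequences `b`, the countable set `Bad b` of the limit codes which can be read off the apexes of `b`.  A sequence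
is made active unless infinitely many of its apexes are in a tube around the lines of an earlier active one.
Thus every sequence of points of `H` has infinitely many terms in a compact subset of the surface, and the
strips belonging to different sequences diverge, which gives the Hausdorff property.
-/

set_option autoImplicit false

namespace Pool.Agent.Helper46.PC

open Set Filter Topology

variable (S : Sys)

/-- standard neighbourhoods of the points of a line -/
def Wn (C δ : ℝ) (N : ℕ) (a : S.A) (n : ℕ) : Set (Mt S) :=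
  {q | (∃ z, q = lp S a n z) ∨ (n = 0 ∧ ∃ k > N, ∃ z, q = lp S a k z) ∨
    ∃ p, q = hp S p ∧ (p ∈ gset S C δ N (lg S a n) ∨ p ∈ gset S C δ N (rg S a n))}

lemma Wn_mem (a : S.A) (n : ℕ) {z R δ : ℝ} (hz : |z| < R) (hδ : 0 < δ) (N : ℕ) :
    Wn S (Cst R) δ N a n ∈ nb S (lp S a n z) := by
  have hR : 0 ≤ R := (abs_nonneg z).trans hz.le
  rw [nb_lp]
  obtain ⟨ε1, hε1, hε1', hr⟩ := side_right S a n hR hδ N
  rcases Nat.eq_zero_or_pos n with rfl | hn
  · obtain ⟨ε2, hε2, hε2', hl⟩ := side_left_zero S a N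
    have hbox : box (min ε1 ε2) R ∈ 𝓝 ((0 : ℝ), z) :=
      (box_open _ _).mem_nhds ⟨by simp [hε1, hε2], hz⟩
    rw [mem_map]
    filter_upwards [hbox]
    rintro ⟨x, w⟩ ⟨hx, hw⟩
    simp only at hx hw
    rw [lt_min_iff, abs_lt, abs_lt] at hx
    rcases lt_trichotomy x 0 with h | h | h
    · obtain ⟨h1, h2⟩ := hl x w h hx.2.1
      rw [mem_preimage, h1]
      rcases Psi_cases S a (δ := δ) h2 hw.le with ⟨k, hk, hk1, hk2⟩ | ⟨k, hk, hk1, hk2, hk3, hk4⟩
      · rw [hk2]
        exact Or.inr (Or.inl ⟨rfl, k, hk, w, rfl⟩)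
      · rw [hk3]
        exact Or.inr (Or.inr ⟨_, rfl, Or.inl hk4⟩)
    · subst h
      rw [mem_preimage, chi_center]
      exact Or.inl ⟨w, rfl⟩
    · obtain ⟨h1, h2⟩ := hr x w h hx.1.2 hw.le
      rw [mem_preimage, h1]
      exact Or.inr (Or.inr ⟨_, rfl, Or.inr h2⟩)
  · obtain ⟨ε2, hε2, hε2', hl⟩ := side_left S a hn hR hδ N
    have hbox : box (min ε1 ε2) R ∈ 𝓝 ((0 : ℝ), z) :=
      (box_open _ _).mem_nhds ⟨by simp [hε1, hε2], hz⟩
    rw [mem_map]
    filter_upwards [hbox]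
    rintro ⟨x, w⟩ ⟨hx, hw⟩
    simp only at hx hw
    rw [lt_min_iff, abs_lt, abs_lt] at hx
    rcases lt_trichotomy x 0 with h | h | h
    · obtain ⟨h1, h2⟩ := hl x w h hx.2.1 hw.le
      rw [mem_preimage, h1]
      exact Or.inr (Or.inr ⟨_, rfl, Or.inl h2⟩)
    · subst h
      rw [mem_preimage, chi_center]
      exact Or.inl ⟨w, rfl⟩
    · obtain ⟨h1, h2⟩ := hr x w h hx.1.2 hw.le
      rw [mem_preimage, h1]
      exact Or.inr (Or.inr ⟨_, rfl, Or.inr h2⟩)

/-- separation of two filters by disjoint sets -/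
def Sepd (p q : Mt S) : Prop := ∃ U ∈ nb S p, ∃ V ∈ nb S q, Disjoint U V

lemma Sepd.symm {p q : Mt S} (h : Sepd S p q) : Sepd S q p := by
  obtain ⟨U, hU, V, hV, h⟩ := h
  exact ⟨V, hV, U, hU, h.symm⟩

lemma sep_hh {p q : ℝ × ℝ} (h : p ≠ q) : Sepd S (hp S p) (hp S q) := by
  obtain ⟨U, V, hU, hV, hpU, hqV, hUV⟩ := t2_separation h
  refine ⟨hp S '' U, image_mem_map (hU.mem_nhds hpU), hp S '' V, image_mem_map (hV.mem_nhds hqV), ?_⟩
  rw [Set.disjoint_left]
  rintro _ ⟨x, hx, rfl⟩ ⟨y, hy, hxy⟩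
  rw [hp_inj S hxy] at hy
  exact Set.disjoint_left.mp hUV hx hy

lemma sep_hl (p : ℝ × ℝ) (a : S.A) (n : ℕ) (z : ℝ) : Sepd S (hp S p) (lp S a n z) := by
  set R := |z| + 1 with hR
  have hR0 : 0 ≤ R := by positivity
  have hC := Cst_pos hR0
  set C := Cst R
  set η := Real.exp (p.2 - 1) with hη
  have hηp : 0 < η := Real.exp_pos _
  set B := max (C / η) (|p.1| + 1 + C * Real.exp (p.2 + 1)) with hB
  have hBp : 0 < B := lt_max_of_lt_left (by positivity)
  obtain ⟨N, hN⟩ := eventually_atTop.mp (S.F2 a B hBp)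
  let U : Set (ℝ × ℝ) := {q | p.2 - 1 < q.2 ∧ q.2 < p.2 + 1 ∧ |q.1 - p.1| < 1}
  have hU : U ∈ 𝓝 p := by
    have h1 : ∀ᶠ q : ℝ × ℝ in 𝓝 p, p.2 - 1 < q.2 :=
      (continuous_snd.tendsto p).eventually (lt_mem_nhds (by linarith))
    have h2 : ∀ᶠ q : ℝ × ℝ in 𝓝 p, q.2 < p.2 + 1 :=
      (continuous_snd.tendsto p).eventually (gt_mem_nhds (by linarith))
    have h3 : ∀ᶠ q : ℝ × ℝ in 𝓝 p, |q.1 - p.1| < 1 := by
      have hc : Continuous (fun q : ℝ × ℝ => |q.1 - p.1|) := (continuous_fst.sub continuous_const).abs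
      have := hc.tendsto p
      simp only [sub_self, abs_zero] at this
      exact this.eventually (gt_mem_nhds one_pos)
    filter_upwards [h1, h2, h3] with q a b c using ⟨a, b, c⟩
  refine ⟨hp S '' U, image_mem_map hU, Wn S C (η / 2) N a n,
    Wn_mem S a n (by simp [hR]) (by positivity) N, ?_⟩
  rw [Set.disjoint_left]
  rintro _ ⟨q, ⟨hq1, hq2, hq3⟩, rfl⟩ hW
  have he1 : η < Real.exp q.2 := Real.exp_lt_exp.mpr hq1
  have he2 : Real.exp q.2 < Real.exp (p.2 + 1) := Real.exp_lt_exp.mpr hq2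
  have hfoot : ∀ b k σ, q ∉ gset S C (η / 2) N (Germ.foot b k σ) := by
    rintro b k σ ⟨h1, -⟩
    linarith
  have htail : q ∉ gset S C (η / 2) N (Germ.tail a) := by
    rintro ⟨k, hk, h1, σ, h2⟩
    have h3 : 1 / B ≤ S.D a k := by
      rw [div_le_iff₀ hBp]
      have h4 : C / η ≤ B := le_max_left _ _
      have hD := S.D_pos a k
      rw [div_le_iff₀ hηp] at h4
      have h5 : η < C * S.D a k := he1.trans_le h1
      have h6 : C ≤ B * C * S.D a k := by nlinarith
      nlinarith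
    have h4 := hN k hk σ h3
    have h5 : |p.1| + 1 + C * Real.exp (p.2 + 1) ≤ B := le_max_right _ _
    have h6 : |S.e a k σ| ≤ |p.1| + 1 + C * Real.exp (p.2 + 1) := by
      have h7 : |S.e a k σ| ≤ |S.e a k σ - q.1| + (|q.1 - p.1| + |p.1|) := by
        have h8 := abs_sub_le (S.e a k σ) q.1 0
        have h9 := abs_sub_le q.1 p.1 0
        simp only [sub_zero] at h8 h9
        linarith
      rw [abs_sub_comm] at h7
      have h10 : C * Real.exp q.2 ≤ C * Real.exp (p.2 + 1) := by gcongr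
      linarith
    linarith
  rcases hW with ⟨w, hw⟩ | ⟨_, k, _, w, hw⟩ | ⟨q', hq', h⟩
  · exact hp_ne_lp S hw
  · exact hp_ne_lp S hw
  · rw [← hp_inj S hq'] at h
    rcases h with h | h
    · unfold lg at h
      split_ifs at h
      · exact htail h
      · exact hfoot _ _ _ h
    · exact hfoot _ _ _ h

lemma sep_ll_ne {a b : S.A} {n m : ℕ} (hne : ¬ (a = b ∧ n = m)) (z w : ℝ) :
    Sepd S (lp S a n z) (lp S b m w) := by
  set R := max |z| |w| + 1 with hR
  have hR0 : 0 ≤ R := by positivity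
  have hC := Cst_pos hR0
  set C := Cst R
  obtain ⟨δ1, hδ1, N1, h1⟩ := gsep S hC (g := lg S a n) (g' := lg S b m) (fun h => hne (lg_inj S h))
  obtain ⟨δ2, hδ2, N2, h2⟩ := gsep S hC (g := lg S a n) (g' := rg S b m) (lg_ne_rg S a b n m)
  obtain ⟨δ3, hδ3, N3, h3⟩ := gsep S hC (g := rg S a n) (g' := lg S b m) (lg_ne_rg S b a m n).symm
  obtain ⟨δ4, hδ4, N4, h4⟩ := gsep S hC (g := rg S a n) (g' := rg S b m) (fun h => hne (rg_inj S h))
  set δ := min (min δ1 δ2) (min δ3 δ4) with hδ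
  set N := max (max (max N1 N2) (max N3 N4)) (max n m) with hN
  have hδp : 0 < δ := by simp [hδ, hδ1, hδ2, hδ3, hδ4]
  have d1 : δ ≤ δ1 := by simp [hδ]
  have d2 : δ ≤ δ2 := by simp [hδ]
  have d3 : δ ≤ δ3 := by simp [hδ]
  have d4 : δ ≤ δ4 := by simp [hδ]
  have n1 : N1 ≤ N := by simp [hN]
  have n2 : N2 ≤ N := by simp [hN]
  have n3 : N3 ≤ N := by simp [hN]
  have n4 : N4 ≤ N := by simp [hN]
  have nn : n ≤ N := by simp [hN]
  have nm : m ≤ N := by simp [hN]
  refine ⟨Wn S C δ N a n, Wn_mem S a n (lt_of_le_of_lt (le_max_left _ _) (lt_add_one _)) hδp N,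
    Wn S C δ N b m, Wn_mem S b m (lt_of_le_of_lt (le_max_right _ _) (lt_add_one _)) hδp N, ?_⟩
  rw [Set.disjoint_left]
  rintro q (⟨x, hx⟩ | ⟨hn0, k, hk, x, hx⟩ | ⟨p, hp', h⟩) (⟨y, hy⟩ | ⟨hm0, l, hl, y, hy⟩ | ⟨p', hp'', h'⟩)
  · rw [hx] at hy
    have := lp_inj S hy
    exact hne ⟨this.1, this.2.1⟩
  · rw [hx] at hy
    have := lp_inj S hy
    omega
  · rw [hx] at hp''
    exact hp_ne_lp S hp''.symm
  · rw [hx] at hy
    have := lp_inj S hy
    omega
  · rw [hx] at hy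
    have := lp_inj S hy
    exact hne ⟨this.1, by omega⟩
  · rw [hx] at hp''
    exact hp_ne_lp S hp''.symm
  · rw [hp'] at hy
    exact hp_ne_lp S hy
  · rw [hp'] at hy
    exact hp_ne_lp S hy
  · rw [hp'] at hp''
    rw [← hp_inj S hp''] at h'
    rcases h with h | h <;> rcases h' with h' | h'
    · exact h1 p (gset_mono S d1 n1 _ h) (gset_mono S d1 n1 _ h')
    · exact h2 p (gset_mono S d2 n2 _ h) (gset_mono S d2 n2 _ h')
    · exact h3 p (gset_mono S d3 n3 _ h) (gset_mono S d3 n3 _ h')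
    · exact h4 p (gset_mono S d4 n4 _ h) (gset_mono S d4 n4 _ h')

lemma sep_ll_eq (a : S.A) (n : ℕ) {z w : ℝ} (hzw : z ≠ w) : Sepd S (lp S a n z) (lp S a n w) := by
  set R := max |z| |w| + 1 with hR
  have hR0 : 0 ≤ R := by positivity
  obtain ⟨ε, hε, hε', hinj⟩ := chi_inj S a n hR0
  have hz : ((0 : ℝ), z) ∈ box ε R := ⟨by simpa using hε, lt_of_le_of_lt (le_max_left _ _) (lt_add_one _)⟩
  have hw : ((0 : ℝ), w) ∈ box ε R := ⟨by simpa using hε, lt_of_le_of_lt (le_max_right _ _) (lt_add_one _)⟩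
  have hne : ((0 : ℝ), z) ≠ ((0 : ℝ), w) := by simpa using hzw
  obtain ⟨U, V, hU, hV, hpU, hqV, hUV⟩ := t2_separation hne
  refine ⟨chi S a n '' (U ∩ box ε R), ?_, chi S a n '' (V ∩ box ε R), ?_, ?_⟩
  · rw [nb_lp]
    exact image_mem_map (inter_mem (hU.mem_nhds hpU) ((box_open ε R).mem_nhds hz))
  · rw [nb_lp]
    exact image_mem_map (inter_mem (hV.mem_nhds hqV) ((box_open ε R).mem_nhds hw))
  · rw [Set.disjoint_left]
    rintro _ ⟨x, hx, rfl⟩ ⟨y, hy, hxy⟩
    have := hinj hy.2 hx.2 hxy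
    rw [this] at hy
    exact Set.disjoint_left.mp hUV hx.1 hy.1

lemma sep_all {p q : Mt S} (h : p ≠ q) : Sepd S p q := by
  rcases p with p | ⟨a, n, z⟩ <;> rcases q with q | ⟨b, m, w⟩
  · exact sep_hh S (fun h' => h (by rw [h']))
  · exact sep_hl S p b m w
  · exact (sep_hl S q a n z).symm
  · by_cases hne : a = b ∧ n = m
    · obtain ⟨rfl, rfl⟩ := hne
      exact sep_ll_eq S a n (fun h' => h (by rw [h']))
    · exact sep_ll_ne S hne z w

lemma charts (p : Mt S) : ∃ (D : Set (ℝ × ℝ)) (φ : ℝ × ℝ → Mt S), IsOpen D ∧ p ∈ φ '' D ∧ InjOn φ D ∧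
    ∀ y ∈ D, map φ (𝓝 y) = nb S (φ y) := by
  rcases p with p | ⟨a, n, z⟩
  · exact ⟨Set.univ, hp S, isOpen_univ, ⟨p, mem_univ _, rfl⟩, fun x _ y _ h => hp_inj S h,
      fun y _ => (nb_hp S y).symm⟩
  · obtain ⟨ε, hε, hε', hinj⟩ := chi_inj S a n (R := |z| + 1) (by positivity)
    refine ⟨box ε (|z| + 1), chi S a n, box_open _ _, ⟨(0, z), ⟨by simpa using hε, by simp⟩, chi_center S a n z⟩,
      hinj, ?_⟩
    rintro ⟨x, w⟩ ⟨hx, -⟩
    apply chi_map S a n
    simp only at hx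
    rw [abs_lt] at hx
    linarith [hx.1]

/-- homeomorphism between the plane and the product -/
noncomputable def plane : EuclideanSpace ℝ (Fin 2) ≃ₜ ℝ × ℝ :=
  (EuclideanSpace.equiv (Fin 2) ℝ).toHomeomorph.trans Homeomorph.finTwoArrow

lemma Mt_cases (q : Mt S) : (∃ p, q = hp S p) ∨ ∃ a n z, q = lp S a n z := by
  rcases q with p | ⟨a, n, z⟩
  · exact Or.inl ⟨p, rfl⟩
  · exact Or.inr ⟨a, n, z, rfl⟩

section Top

variable [t : TopologicalSpace (Mt S)]

lemma hp_cont (hnb : ∀ p : Mt S, 𝓝 p = nb S p) : Continuous (hp S) := by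
  rw [continuous_iff_continuousAt]
  intro p
  unfold ContinuousAt
  rw [hnb, nb_hp]
  exact tendsto_map

lemma chi_cont (hnb : ∀ p : Mt S, 𝓝 p = nb S p) (a : S.A) (n : ℕ) {x : ℝ} (hx : -1 < x) (z : ℝ) :
    ContinuousAt (chi S a n) (x, z) := by
  unfold ContinuousAt
  rw [hnb, ← chi_map S a n hx z]
  exact tendsto_map

lemma hp_dense (hnb : ∀ p : Mt S, 𝓝 p = nb S p) : DenseRange (hp S) := by
  intro q
  rw [mem_closure_iff_nhds]
  intro U hU
  rw [hnb] at hU
  rcases Mt_cases S q with ⟨p, rfl⟩ | ⟨a, n, z, rfl⟩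
  · rw [nb_hp, mem_map] at hU
    have h1 : p ∈ hp S ⁻¹' U := mem_of_mem_nhds hU
    exact ⟨hp S p, h1, p, rfl⟩
  · rw [nb_lp, mem_map] at hU
    obtain ⟨ε, hε, hε', hr⟩ := side_right S a n (R := |z|) (abs_nonneg z) one_pos 0
    have hc : Tendsto (fun x : ℝ => (x, z)) (𝓝[>] 0) (𝓝 (0, z)) := by
      have : Continuous (fun x : ℝ => (x, z)) := by fun_prop
      exact (this.tendsto 0).mono_left nhdsWithin_le_nhds
    have h1 : ∀ᶠ x : ℝ in 𝓝[>] 0, (x, z) ∈ chi S a n ⁻¹' U := hc.eventually hU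
    have h2 : ∀ᶠ x : ℝ in 𝓝[>] 0, x ∈ Ioo 0 ε := Ioo_mem_nhdsGT hε
    obtain ⟨x, hx1, hx2⟩ := (h1.and h2).exists
    rw [mem_preimage, (hr x z hx2.1 hx2.2 le_rfl).1] at hx1
    exact ⟨_, hx1, _, rfl⟩

/-- compact pieces of the closed tubes -/
lemma compact_tube (hnb : ∀ p : Mt S, 𝓝 p = nb S p) (a : S.A) (R : ℝ) :
    IsCompact (chi S a 0 '' (Icc (-1 / 2) 1 ×ˢ Icc (-R) R)) := by
  apply IsCompact.image_of_continuousOn (isCompact_Icc.prod isCompact_Icc)
  rintro ⟨x, z⟩ ⟨hx, hz⟩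
  apply (chi_cont S hnb a 0 _ z).continuousWithinAt
  linarith [hx.1]

omit t in
lemma tube_in_compact (a : S.A) {C : ℝ} {p : ℝ × ℝ} {k : ℕ} {σ : Bool}
    (h1 : Real.exp p.2 ≤ C * S.D a k) (h2 : |p.1 - S.e a k σ| ≤ C * Real.exp p.2) :
    hp S p ∈ chi S a 0 '' (Icc (-1 / 2) 1 ×ˢ Icc (-(C * (1 + C ^ 2) + C)) (C * (1 + C ^ 2) + C)) := by
  have hD := S.D_pos a k
  have h3 : |(Theta (S.e a k false) (S.D a k) p).2| ≤ C * (1 + C ^ 2) + C := by
    apply lateral hD h1
    cases σ with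
    | false => exact Or.inl h2
    | true => right; rw [← S.e_true]; exact h2
  obtain ⟨h4, h5⟩ := Theta_fst (e := S.e a k false) hD p
  have h6 := Phi_Theta (e := S.e a k false) hD p
  generalize Theta (S.e a k false) (S.D a k) p = w at h3 h4 h5 h6
  obtain ⟨t', z⟩ := w
  simp only at h3 h4 h5
  have h7 : Psi S a (k + t', z) = hp S p := by
    rw [Psi_frac S a k (by linarith) (by linarith)]
    have : (k : ℝ) + t' - k = t' := by ring
    rw [this]
    unfold ph
    rw [h6]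
  rw [abs_le] at h3
  rcases Nat.eq_zero_or_pos k with rfl | hk
  · refine ⟨(t', z), ⟨⟨by linarith, by linarith⟩, h3⟩, ?_⟩
    rw [chi_zero_eq]
    simp only [Function.comp, tau, h4.le, if_true]
    simpa using h7
  · have hk' : (1 : ℝ) ≤ k := by exact_mod_cast hk
    refine ⟨(-1 / (k + t' + 1), z), ⟨⟨?_, ?_⟩, h3⟩, ?_⟩
    · simp only
      rw [div_le_div_iff₀ (by norm_num) (by linarith)]
      linarith
    · simp only
      have : -1 / ((k : ℝ) + t' + 1) < 0 := div_neg_of_neg_of_pos (by norm_num) (by linarith)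
      linarith
    · rw [chi_zero_eq]
      have h8 : -1 / ((k : ℝ) + t' + 1) < 0 := div_neg_of_neg_of_pos (by norm_num) (by linarith)
      simp only [Function.comp, tau, h8.not_ge, if_false]
      rw [← h7]
      congr 2
      have : (k : ℝ) + t' + 1 ≠ 0 := by linarith
      field_simp
      ring

lemma pseudo (hnb : ∀ p : Mt S, 𝓝 p = nb S p) (f : Mt S → ℝ) (hf : Continuous f) :
    BddAbove (Set.range f) := by
  by_contra hcon
  rw [not_bddAbove_iff] at hcon
  have h1 : ∀ n : ℕ, ∃ p : ℝ × ℝ, (n : ℝ) < f (hp S p) := by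
    intro n
    obtain ⟨_, ⟨q, rfl⟩, hq⟩ := hcon n
    have hop : IsOpen (f ⁻¹' (Ioi (n : ℝ))) := isOpen_Ioi.preimage hf
    obtain ⟨p, hp'⟩ := (hp_dense S hnb).exists_mem_open hop ⟨q, hq⟩
    exact ⟨p, hp'⟩
  choose p hp' using h1
  have key : ∀ K : Set (Mt S), IsCompact K → ¬ ∃ᶠ n in atTop, hp S (p n) ∈ K := by
    intro K hK hfr
    obtain ⟨B, hB⟩ := (hK.image hf).bddAbove
    obtain ⟨N, hN⟩ := exists_nat_gt B
    obtain ⟨n, hn, hnK⟩ := (frequently_atTop.mp hfr) N
    have h2 := hB (mem_image_of_mem f hnK)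
    have h3 := hp' n
    have h4 : (N : ℝ) ≤ n := by exact_mod_cast hn
    linarith
  rcases S.F5 p with ⟨K, hK, hfr⟩ | ⟨a, C, hfr⟩
  · exact key _ (hK.image (hp_cont S hnb)) (hfr.mono fun n hn => mem_image_of_mem _ hn)
  · refine key _ (compact_tube S hnb a (C * (1 + C ^ 2) + C)) (hfr.mono ?_)
    rintro n ⟨k, σ, h2, h3⟩
    exact tube_in_compact S a h2 h3

lemma no_cluster (hnb : ∀ p : Mt S, 𝓝 p = nb S p) (a : S.A) (x : Mt S) :
    ¬ MapClusterPt x atTop (fun n : ℕ => lp S a 0 n) := by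
  intro h
  rw [mapClusterPt_iff_frequently] at h
  rcases Mt_cases S x with ⟨p, rfl⟩ | ⟨b, m, z, rfl⟩
  · have hU : Set.range (hp S) ∈ 𝓝 (hp S p) := by
      rw [hnb, nb_hp]
      exact range_mem_map
    obtain ⟨n, hn⟩ := (h _ hU).exists
    obtain ⟨q, hq⟩ := hn
    exact hp_ne_lp S hq
  · have hU : chi S b m '' {q | |q.2 - z| < 1} ∈ 𝓝 (lp S b m z) := by
      rw [hnb, nb_lp]
      apply image_mem_map
      have hc : Continuous (fun q : ℝ × ℝ => |q.2 - z|) := (continuous_snd.sub continuous_const).abs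
      have := hc.tendsto ((0 : ℝ), z)
      simp only [sub_self, abs_zero] at this
      exact this.eventually (gt_mem_nhds one_pos)
    obtain ⟨N, hN⟩ := exists_nat_gt (z + 1)
    obtain ⟨n, hn, q, hq, hqn⟩ := (frequently_atTop.mp (h _ hU)) N
    have h1 := (chi_lateral S b m q hqn).1
    have h2 : |q.2 - z| < 1 := hq
    rw [← h1, abs_lt] at h2
    have h3 : (N : ℝ) ≤ n := by exact_mod_cast hn
    linarith [h2.2]

end Top

theorem main (S : Sys) :
    ∃ (X : Type) (t : TopologicalSpace X),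
      T2Space X ∧ ConnectedSpace X ∧
      (∃ n : ℕ, Nonempty (ChartedSpace (EuclideanSpace ℝ (Fin n)) X)) ∧
      (∀ f : X → ℝ, Continuous f → BddAbove (Set.range f)) ∧
      (∃ u : ℕ → X, ∀ x : X, ¬ MapClusterPt x Filter.atTop u) := by
  obtain ⟨t, hnb, hchart⟩ := exists_manifold (M := Mt S) (E := EuclideanSpace ℝ (Fin 2)) (nb S) (by
    intro p
    obtain ⟨D, φ, hD, hp', hinj, hmap⟩ := charts S p
    refine ⟨plane ⁻¹' D, φ ∘ plane, hD.preimage plane.continuous, ?_, ?_, ?_⟩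
    · obtain ⟨x, hx, rfl⟩ := hp'
      exact ⟨plane.symm x, by simpa using hx, by simp⟩
    · intro x hx y hy hxy
      exact plane.injective (hinj hx hy hxy)
    · intro y hy
      rw [← Filter.map_map, plane.map_nhds_eq]
      exact hmap _ hy)
  refine ⟨Mt S, t, ?_, ?_, ⟨2, hchart⟩, ?_, ?_⟩
  · refine ⟨fun p q hpq => ?_⟩
    obtain ⟨U, hU, V, hV, hUV⟩ := sep_all S hpq
    rw [← hnb] at hU hV
    obtain ⟨U', hU', hoU, hpU⟩ := mem_nhds_iff.mp hU
    obtain ⟨V', hV', hoV, hpV⟩ := mem_nhds_iff.mp hV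
    exact ⟨U', V', hoU, hoV, hpU, hpV, hUV.mono hU' hV'⟩
  · have hc : IsConnected (Set.range (hp S)) := isConnected_range (hp_cont S hnb)
    have h1 := hc.closure
    rw [(hp_dense S hnb).closure_range] at h1
    exact connectedSpace_iff_univ.mpr h1
  · exact fun f hf => pseudo S hnb f hf
  · obtain ⟨a⟩ := S.ne
    exact ⟨fun n : ℕ => lp S a 0 n, fun x => no_cluster S hnb a x⟩

theorem main_result :
    ∃ (X : Type) (t : TopologicalSpace X),
      T2Space X ∧ ConnectedSpace X ∧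
      (∃ n : ℕ, Nonempty (ChartedSpace (EuclideanSpace ℝ (Fin n)) X)) ∧
      (∀ f : X → ℝ, Continuous f → BddAbove (Set.range f)) ∧
      (∃ u : ℕ → X, ∀ x : X, ¬ MapClusterPt x Filter.atTop u) := by
  obtain ⟨S⟩ := exists_sys
  exact main S

end Pool.Agent.Helper46.PC
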