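import Mathlib

/-!
The strip coordinates along a geodesic of the upper half-plane, in coordinates `(y, u)`, `height = exp u`.
-/

set_option autoImplicit false

namespace Pool.Agent.Helper46.PC

open Set Filter Topology

noncomputable def Qf (t z : ℝ) : ℝ := (1 - t + t * z) ^ 2 + t ^ 2
noncomputable def Hf (t z : ℝ) : ℝ := t * (1 - t) / Qf t z
noncomputable def Yf (t z : ℝ) : ℝ := (t * (1 - t) * z + t ^ 2 * (1 + z ^ 2)) / Qf t z

/-- strip coordinates to half-plane coordinates -/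
noncomputable def Phi (e D : ℝ) (p : ℝ × ℝ) : ℝ × ℝ :=
  (e + D * Yf p.1 p.2, Real.log (D * Hf p.1 p.2))

/-- half-plane coordinates to strip coordinates -/
noncomputable def Theta (e D : ℝ) (p : ℝ × ℝ) : ℝ × ℝ :=
  ((Real.exp p.2 / D) / ((Real.exp p.2 / D) + (1 - (p.1 - e) / D) ^ 2 + (Real.exp p.2 / D) ^ 2),
    ((p.1 - e) / D * (1 - (p.1 - e) / D) - (Real.exp p.2 / D) ^ 2) / (Real.exp p.2 / D))

lemma Qf_pos {t z : ℝ} (h : 0 < t) : 0 < Qf t z := by unfold Qf; positivity

lemma Hf_pos {t z : ℝ} (h : 0 < t) (h1 : t < 1) : 0 < Hf t z := by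
  unfold Hf
  have := Qf_pos (z := z) h
  have : 0 < 1 - t := by linarith
  positivity

lemma one_sub_Yf {t z : ℝ} (h : 0 < t) : 1 - Yf t z = (1 - t) * (1 - t + t * z) / Qf t z := by
  have := Qf_pos (z := z) h
  unfold Yf
  rw [eq_div_iff this.ne', sub_mul, div_mul_cancel₀ _ this.ne']
  unfold Qf
  ring

lemma Yf_div {t z : ℝ} (h : 0 < t) (h1 : t < 1) :
    Yf t z = Hf t z * (z + t / (1 - t) * (1 + z ^ 2)) := by
  have := Qf_pos (z := z) h
  have h2 : 1 - t ≠ 0 := by linarith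
  unfold Yf Hf
  field_simp

lemma one_sub_Yf_div {t z : ℝ} (h : 0 < t) : 
    1 - Yf t z = Hf t z * (z + (1 - t) / t) := by
  rw [one_sub_Yf h]
  have := Qf_pos (z := z) h
  unfold Hf
  field_simp
  ring

lemma exp_Phi {e D : ℝ} (hD : 0 < D) {p : ℝ × ℝ} (h : 0 < p.1) (h1 : p.1 < 1) :
    Real.exp (Phi e D p).2 = D * Hf p.1 p.2 := by
  unfold Phi
  have := Hf_pos (z := p.2) h h1
  simp only
  rw [Real.exp_log (by positivity)]

lemma Theta_Phi {e D : ℝ} (hD : 0 < D) {p : ℝ × ℝ} (h : 0 < p.1) (h1 : p.1 < 1) :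
    Theta e D (Phi e D p) = p := by
  obtain ⟨t, z⟩ := p
  simp only at h h1
  have hQ := Qf_pos (z := z) h
  have hH := Hf_pos (z := z) h h1
  have hexp := exp_Phi (e := e) hD (p := (t, z)) h h1
  simp only at hexp
  have e1 : Real.exp (Phi e D (t, z)).2 / D = Hf t z := by rw [hexp]; field_simp
  have e2 : ((Phi e D (t, z)).1 - e) / D = Yf t z := by simp [Phi]; field_simp
  unfold Theta
  rw [e1, e2]
  have h2 : 0 < 1 - t := by linarith
  ext
  · simp only
    rw [one_sub_Yf h]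
    unfold Hf
    rw [div_eq_iff (by positivity)]
    field_simp
    unfold Qf
    ring
  · simp only
    rw [one_sub_Yf h]
    unfold Hf Yf
    field_simp
    unfold Qf
    ring

lemma Theta_fst {e D : ℝ} (hD : 0 < D) (p : ℝ × ℝ) :
    0 < (Theta e D p).1 ∧ (Theta e D p).1 < 1 := by
  unfold Theta
  simp only
  have : 0 < Real.exp p.2 / D := by positivity
  constructor
  · positivity
  · rw [div_lt_one (by positivity)]
    nlinarith [sq_nonneg (1 - (p.1 - e) / D), pow_pos this 2]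

lemma Phi_Theta {e D : ℝ} (hD : 0 < D) (p : ℝ × ℝ) : Phi e D (Theta e D p) = p := by
  obtain ⟨y0, u⟩ := p
  obtain ⟨y, rfl⟩ : ∃ y, y0 = e + D * y := ⟨(y0 - e) / D, by field_simp; ring⟩
  obtain ⟨h, hh, hu⟩ : ∃ h, 0 < h ∧ Real.exp u = D * h := ⟨Real.exp u / D, by positivity, by field_simp⟩
  have e1 : Real.exp u / D = h := by rw [hu]; field_simp
  have e2 : (e + D * y - e) / D = y := by field_simp; ring
  unfold Phi Theta
  simp only [e1, e2]
  have hden : 0 < h + (1 - y) ^ 2 + h ^ 2 := by positivity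
  have hn : 0 < (1 - y) ^ 2 + h ^ 2 := by positivity
  set t := h / (h + (1 - y) ^ 2 + h ^ 2) with ht
  set z := (y * (1 - y) - h ^ 2) / h with hz
  have h1t : 1 - t = ((1 - y) ^ 2 + h ^ 2) / (h + (1 - y) ^ 2 + h ^ 2) := by
    rw [ht]; field_simp; ring
  have htz : t * z = (y * (1 - y) - h ^ 2) / (h + (1 - y) ^ 2 + h ^ 2) := by
    rw [ht, hz]; field_simp
  have hQ : Qf t z = ((1 - y) ^ 2 + h ^ 2) / (h + (1 - y) ^ 2 + h ^ 2) ^ 2 := by
    unfold Qf
    rw [htz, h1t, ht]
    field_simp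
    ring
  have hQpos : 0 < Qf t z := by rw [hQ]; positivity
  have hH : Hf t z = h := by
    unfold Hf
    rw [div_eq_iff hQpos.ne', h1t, hQ, ht]
    field_simp
  have hY : Yf t z = y := by
    unfold Yf
    rw [div_eq_iff hQpos.ne']
    have : t * (1 - t) * z + t ^ 2 * (1 + z ^ 2) = (t * z) * (1 - t) + t ^ 2 + (t * z) ^ 2 := by ring
    rw [this, htz, h1t, hQ, ht]
    field_simp
    ring
  rw [hH, hY, ← hu, Real.log_exp]

lemma Phi_continuousAt {e D : ℝ} (hD : 0 < D) {p : ℝ × ℝ} (h : 0 < p.1) (h1 : p.1 < 1) :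
    ContinuousAt (Phi e D) p := by
  have hQ := Qf_pos (z := p.2) h
  have hH := Hf_pos (z := p.2) h h1
  have cQ : ContinuousAt (fun p : ℝ × ℝ => Qf p.1 p.2) p := by
    unfold Qf; fun_prop
  have cH : ContinuousAt (fun p : ℝ × ℝ => Hf p.1 p.2) p := by
    unfold Hf
    exact ContinuousAt.div (by fun_prop) cQ hQ.ne'
  have cY : ContinuousAt (fun p : ℝ × ℝ => Yf p.1 p.2) p := by
    unfold Yf
    exact ContinuousAt.div (by fun_prop) cQ hQ.ne'
  unfold Phi
  apply ContinuousAt.prodMk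
  · exact continuousAt_const.add (continuousAt_const.mul cY)
  · exact ContinuousAt.log (continuousAt_const.mul cH) (by positivity)

lemma Theta_continuous {e D : ℝ} (hD : 0 < D) : Continuous (Theta e D) := by
  unfold Theta
  apply Continuous.prodMk
  · apply Continuous.div (by fun_prop) (by fun_prop)
    intro p
    have : 0 < Real.exp p.2 / D := by positivity
    positivity
  · apply Continuous.div (by fun_prop) (by fun_prop)
    intro p
    have : 0 < Real.exp p.2 / D := by positivity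
    positivity

/-- criterion for a local homeomorphism, in terms of filters -/
lemma map_nhds_of_inverse {X Y : Type*} [TopologicalSpace X] [TopologicalSpace Y] {f : X → Y} {g : Y → X}
    {x : X} {y : Y} (hf : Tendsto f (𝓝 x) (𝓝 y)) (hg : Tendsto g (𝓝 y) (𝓝 x))
    (hfg : ∀ᶠ z in 𝓝 y, f (g z) = z) : map f (𝓝 x) = 𝓝 y := by
  apply le_antisymm hf
  have h1 : map (f ∘ g) (𝓝 y) = 𝓝 y := by
    have : map (f ∘ g) (𝓝 y) = map id (𝓝 y) := Filter.map_congr hfg
    rw [this, Filter.map_id]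
  calc 𝓝 y = map (f ∘ g) (𝓝 y) := h1.symm
    _ = map f (map g (𝓝 y)) := by rw [Filter.map_map]
    _ ≤ map f (𝓝 x) := Filter.map_mono hg

lemma Phi_map {e D : ℝ} (hD : 0 < D) {p : ℝ × ℝ} (h : 0 < p.1) (h1 : p.1 < 1) :
    map (Phi e D) (𝓝 p) = 𝓝 (Phi e D p) := by
  apply map_nhds_of_inverse (g := Theta e D) (Phi_continuousAt hD h h1)
  · have := (Theta_continuous (e := e) hD).tendsto (Phi e D p)
    rwa [Theta_Phi hD h h1] at this
  · exact Eventually.of_forall (fun z => Phi_Theta hD z)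

/-- the constant in the tube estimates -/
noncomputable def Cst (R : ℝ) : ℝ := 2 * (1 + R) ^ 2

lemma Qf_lower {t z : ℝ} : (1 - t) ^ 2 ≤ (1 + z ^ 2) * Qf t z := by
  unfold Qf
  nlinarith [sq_nonneg ((1 - t + t * z) * z + t)]

lemma tube_left {e D : ℝ} (hD : 0 < D) {p : ℝ × ℝ} {R : ℝ} (hR : |p.2| ≤ R) (h : 0 < p.1)
    (h1 : p.1 ≤ 1 / 2) :
    |(Phi e D p).1 - e| ≤ Cst R * Real.exp (Phi e D p).2 ∧ Real.exp (Phi e D p).2 ≤ Cst R * D * p.1 := by
  obtain ⟨t, z⟩ := p
  simp only at hR h h1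
  have hR0 : 0 ≤ R := (abs_nonneg z).trans hR
  have ht1 : t < 1 := by linarith
  have hH := Hf_pos (z := z) h ht1
  have hQ := Qf_pos (z := z) h
  rw [exp_Phi hD h ht1]
  simp only
  have hz2 : z ^ 2 ≤ R ^ 2 := by
    rw [← sq_abs]; gcongr
  constructor
  · have : (Phi e D (t, z)).1 - e = D * Yf t z := by simp [Phi]
    rw [this, Yf_div h ht1, abs_mul, abs_mul, abs_of_pos hD, abs_of_pos hH]
    have h3 : t / (1 - t) ≤ 1 := by rw [div_le_one (by linarith)]; linarith
    have h3' : 0 ≤ t / (1 - t) := div_nonneg h.le (by linarith)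
    have h2 : |z + t / (1 - t) * (1 + z ^ 2)| ≤ Cst R := by
      refine (abs_add_le _ _).trans ?_
      rw [abs_of_nonneg (show 0 ≤ t / (1 - t) * (1 + z ^ 2) by positivity)]
      have : t / (1 - t) * (1 + z ^ 2) ≤ 1 * (1 + z ^ 2) := by gcongr
      unfold Cst
      nlinarith
    calc D * (Hf t z * |z + t / (1 - t) * (1 + z ^ 2)|) ≤ D * (Hf t z * Cst R) := by gcongr
      _ = _ := by ring
  · have h2 : Hf t z ≤ 2 * (1 + z ^ 2) * t := by
      unfold Hf
      rw [div_le_iff₀ hQ]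
      have h3 := Qf_lower (t := t) (z := z)
      have h4 : t * (1 - t) ≤ 2 * t * (1 - t) ^ 2 := by
        nlinarith [mul_nonneg (mul_nonneg h.le (by linarith : 0 ≤ 1 - t)) (by linarith : 0 ≤ 1 - 2 * t)]
      have h5 : 2 * t * (1 - t) ^ 2 ≤ 2 * t * ((1 + z ^ 2) * Qf t z) := by gcongr
      linarith
    have h3 : 2 * (1 + z ^ 2) ≤ Cst R := by unfold Cst; nlinarith
    calc D * Hf t z ≤ D * (2 * (1 + z ^ 2) * t) := by gcongr
      _ ≤ D * (Cst R * t) := by gcongr
      _ = _ := by ring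

lemma tube_right {e D : ℝ} (hD : 0 < D) {p : ℝ × ℝ} {R : ℝ} (hR : |p.2| ≤ R) (h : 1 / 2 ≤ p.1)
    (h1 : p.1 < 1) :
    |(Phi e D p).1 - (e + D)| ≤ Cst R * Real.exp (Phi e D p).2 ∧
      Real.exp (Phi e D p).2 ≤ Cst R * D * (1 - p.1) := by
  obtain ⟨t, z⟩ := p
  simp only at hR h h1
  have hR0 : 0 ≤ R := (abs_nonneg z).trans hR
  have ht : 0 < t := by linarith
  have hH := Hf_pos (z := z) ht h1
  have hQ := Qf_pos (z := z) ht
  rw [exp_Phi hD ht h1]
  simp only
  constructor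
  · have : (Phi e D (t, z)).1 - (e + D) = - (D * (1 - Yf t z)) := by simp [Phi]; ring
    rw [this, one_sub_Yf_div ht, abs_neg, abs_mul, abs_mul, abs_of_pos hD, abs_of_pos hH]
    have h3 : (1 - t) / t ≤ 1 := by rw [div_le_one ht]; linarith
    have h3' : 0 ≤ (1 - t) / t := div_nonneg (by linarith) ht.le
    have h2 : |z + (1 - t) / t| ≤ Cst R := by
      refine (abs_add_le _ _).trans ?_
      rw [abs_of_nonneg h3']
      unfold Cst
      nlinarith
    calc D * (Hf t z * |z + (1 - t) / t|) ≤ D * (Hf t z * Cst R) := by gcongr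
      _ = _ := by ring
  · have h2 : Hf t z ≤ 2 * (1 - t) := by
      unfold Hf
      rw [div_le_iff₀ hQ]
      have h3 : t ^ 2 ≤ Qf t z := by unfold Qf; nlinarith [sq_nonneg (1 - t + t * z)]
      have h4 : t ≤ 2 * t ^ 2 := by nlinarith
      have h5 : 0 ≤ 1 - t := by linarith
      calc t * (1 - t) ≤ 2 * t ^ 2 * (1 - t) := by gcongr
        _ ≤ 2 * Qf t z * (1 - t) := by gcongr
        _ = _ := by ring
    have h3 : 2 ≤ Cst R := by unfold Cst; nlinarith
    have h5 : 0 ≤ 1 - t := by linarith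
    calc D * Hf t z ≤ D * (2 * (1 - t)) := by gcongr
      _ ≤ D * (Cst R * (1 - t)) := by gcongr
      _ = _ := by ring

/-- points of a big tube have bounded lateral coordinate -/
lemma lateral {e D : ℝ} (hD : 0 < D) {p : ℝ × ℝ} {C : ℝ} (h1 : Real.exp p.2 ≤ C * D)
    (h2 : |p.1 - e| ≤ C * Real.exp p.2 ∨ |p.1 - (e + D)| ≤ C * Real.exp p.2) :
    |(Theta e D p).2| ≤ C * (1 + C ^ 2) + C := by
  obtain ⟨y0, u⟩ := p
  obtain ⟨y, rfl⟩ : ∃ y, y0 = e + D * y := ⟨(y0 - e) / D, by field_simp; ring⟩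
  obtain ⟨h, hh, hu⟩ : ∃ h, 0 < h ∧ Real.exp u = D * h := ⟨Real.exp u / D, by positivity, by field_simp⟩
  have e1 : Real.exp u / D = h := by rw [hu]; field_simp
  have e2 : (e + D * y - e) / D = y := by field_simp; ring
  unfold Theta
  simp only [e1, e2]
  simp only [hu] at h1 h2
  have hC : h ≤ C := by
    by_contra hcon
    push Not at hcon
    nlinarith
  have hC0 : 0 < C := by linarith
  have h2' : |y| ≤ C * h ∨ |1 - y| ≤ C * h := by
    rcases h2 with h2 | h2
    · left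
      have : e + D * y - e = D * y := by ring
      rw [this, abs_mul, abs_of_pos hD] at h2
      by_contra hcon
      push Not at hcon
      nlinarith
    · right
      have : e + D * y - (e + D) = -(D * (1 - y)) := by ring
      rw [this, abs_neg, abs_mul, abs_of_pos hD] at h2
      by_contra hcon
      push Not at hcon
      nlinarith
  rw [abs_div, abs_of_pos hh, div_le_iff₀ hh]
  have h3 : |y * (1 - y)| ≤ C * h * (1 + C ^ 2) := by
    rw [abs_mul]
    have hle : C * h ≤ C ^ 2 := by nlinarith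
    rcases h2' with h | h
    · have h4 : |1 - y| ≤ 1 + C ^ 2 := by
        have := abs_sub (1 : ℝ) y
        rw [abs_one] at this
        linarith
      gcongr
    · have h4 : |y| ≤ 1 + C ^ 2 := by
        have h5 : |y| ≤ |1| + |1 - y| := by
          have := abs_sub (1 : ℝ) (1 - y)
          simpa using this
        rw [abs_one] at h5
        linarith
      rw [mul_comm]
      gcongr
  calc |y * (1 - y) - h ^ 2| ≤ |y * (1 - y)| + |h ^ 2| := abs_sub _ _
    _ ≤ C * h * (1 + C ^ 2) + h ^ 2 := by rw [abs_of_pos (show 0 < h ^ 2 by positivity)]; gcongr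
    _ ≤ C * h * (1 + C ^ 2) + C * h := by nlinarith
    _ = _ := by ring

end Pool.Agent.Helper46.PC
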