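import Pool.Agent.Helper46.PC.Comb

/-!
Good subsequences, the choice of codes, the active sequences.
-/

set_option autoImplicit false

namespace Pool.Agent.Helper46.PC

open Set Filter Topology Cardinal

lemma Close.mono {K K' : ℝ} (h : K ≤ K') {z z' : ℤ × ℤ} (hc : Close K z z') : Close K' z z' := by
  obtain ⟨h1, h2, h3⟩ := hc
  have p1 := sc_pos z
  have p2 := sc_pos z'
  exact ⟨h1.trans (by gcongr), h2.trans (by gcongr), h3.trans (by gcongr)⟩

lemma close_finite_aux (K : ℝ) (z0 : ℤ × ℤ) (B : ℝ) :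
    {z : ℤ × ℤ | sc z0 ≤ K * sc z ∧ sc z ≤ K * sc z0 ∧ |yp z - yp z0| ≤ B}.Finite := by
  rcases le_or_gt K 0 with hK | hK
  · convert Set.finite_empty
    ext z
    simp only [mem_ofPred_eq, mem_empty_iff_false, iff_false]
    rintro ⟨h1, -, -⟩
    have := sc_pos z0
    have := sc_pos z
    nlinarith
  · have p0 := sc_pos z0
    have hpos : 0 < K / sc z0 + (|B| + |yp z0| + K * sc z0) := by positivity
    apply (sc_ge_finite _ hpos).subset
    rintro z ⟨h1, h2, h3⟩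
    have pz := sc_pos z
    refine ⟨?_, false, fun _ => false, ?_⟩
    · rw [div_le_iff₀ hpos]
      have h4 : 1 ≤ sc z * (K / sc z0) := by
        rw [mul_div_assoc', le_div_iff₀ p0]; linarith
      have h5 : 0 ≤ sc z * (|B| + |yp z0| + K * sc z0) := by positivity
      nlinarith
    · have e1 := yp_ft z false (fun _ => false)
      have e2 : |ft z false fun _ => false| ≤ |ft z false (fun _ => false) - yp z| + (|yp z - yp z0| + |yp z0|) := by
        have := abs_sub_le (ft z false (fun _ => false)) (yp z) 0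
        have := abs_sub_le (yp z) (yp z0) 0
        simp only [sub_zero] at *
        linarith
      rw [abs_sub_comm] at e2
      have := le_abs_self B
      have : 0 < K / sc z0 := by positivity
      linarith

lemma close_finite (K : ℝ) (z0 : ℤ × ℤ) :
    {z : ℤ × ℤ | Close K z0 z ∨ Close K z z0}.Finite := by
  rcases le_or_gt K 0 with hK | hK
  · convert Set.finite_empty
    ext z
    simp only [mem_ofPred_eq, mem_empty_iff_false, iff_false]
    have := sc_pos z0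
    have := sc_pos z
    rintro (⟨h1, -, -⟩ | ⟨h1, -, -⟩) <;> nlinarith
  · apply (close_finite_aux K z0 (K * sc z0 + K * (K * sc z0))).subset
    have p0 := sc_pos z0
    rintro z (⟨h1, h2, h3⟩ | ⟨h1, h2, h3⟩)
    · refine ⟨h1, h2, ?_⟩
      rw [abs_sub_comm]
      have : 0 ≤ K * (K * sc z0) := by positivity
      linarith
    · refine ⟨h2, h1, ?_⟩
      refine h3.trans ?_
      have h4 : K * sc z ≤ K * (K * sc z0) := by gcongr
      have : 0 ≤ K * sc z0 := by positivity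
      linarith

lemma exists_far {z : ℕ → ℤ × ℤ} (hz : ∀ z0, ∀ᶠ n in atTop, z n ≠ z0) :
    ∃ φ : ℕ → ℕ, StrictMono φ ∧
      ∀ K : ℝ, ∃ N : ℕ, ∀ k l, N ≤ k → N ≤ l → k ≠ l → ¬ Close K (z (φ k)) (z (φ l)) := by
  have H : ∀ n : ℕ, ∃ m > n, ∀ l ≥ m, ∀ i ≤ n, ¬ (Close n (z i) (z l) ∨ Close n (z l) (z i)) := by
    intro n
    have h1 : ∀ᶠ l in atTop, ∀ i ∈ Set.Iic n, ¬ (Close n (z i) (z l) ∨ Close n (z l) (z i)) := by
      rw [(Set.finite_Iic n).eventually_all]
      intro i _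
      have h2 : ∀ᶠ l in atTop, ∀ z0 ∈ {z' : ℤ × ℤ | Close n (z i) z' ∨ Close n z' (z i)}, z l ≠ z0 := by
        rw [(close_finite n (z i)).eventually_all]
        intro z0 _
        exact hz z0
      filter_upwards [h2] with l hl h3
      exact hl _ h3 rfl
    obtain ⟨m, hm⟩ := eventually_atTop.mp (h1.and (eventually_gt_atTop n))
    exact ⟨m, (hm m le_rfl).2, fun l hl i hi => (hm l hl).1 i hi⟩
  choose m hm1 hm2 using H
  obtain ⟨φ, hφs⟩ : ∃ φ : ℕ → ℕ, ∀ k, φ (k + 1) = m (φ k) :=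
    ⟨fun k => Nat.rec 0 (fun _ r => m r) k, fun k => rfl⟩
  have hmono : StrictMono φ := strictMono_nat_of_lt_succ (fun k => by rw [hφs]; exact hm1 _)
  have hbase : ∀ k l : ℕ, k < l → ¬ (Close ((l : ℝ) - 1) (z (φ k)) (z (φ l)) ∨
      Close ((l : ℝ) - 1) (z (φ l)) (z (φ k))) := by
    intro k l hkl
    obtain ⟨l', rfl⟩ : ∃ l', l = l' + 1 := ⟨l - 1, by omega⟩
    have h1 := hm2 (φ l') (φ (l' + 1)) (by rw [hφs]) (φ k) (hmono.monotone (by omega))
    have h2 : ((l' + 1 : ℕ) : ℝ) - 1 ≤ ((φ l' : ℕ) : ℝ) := by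
      have := hmono.id_le l'
      push_cast
      have h3 : (l' : ℝ) ≤ ((φ l' : ℕ) : ℝ) := by exact_mod_cast this
      linarith
    rintro (h3 | h3)
    · exact h1 (Or.inl (h3.mono h2))
    · exact h1 (Or.inr (h3.mono h2))
  refine ⟨φ, hmono, ?_⟩
  intro K
  obtain ⟨N, hN⟩ := exists_nat_gt (K + 1)
  refine ⟨N, ?_⟩
  intro k l hk hl hkl hc
  have hk' : (N : ℝ) ≤ k := by exact_mod_cast hk
  have hl' : (N : ℝ) ≤ l := by exact_mod_cast hl
  rcases lt_or_gt_of_ne hkl with h | h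
  · exact hbase k l h (Or.inl (hc.mono (by linarith)))
  · exact hbase l k h (Or.inr (hc.mono (by linarith)))

lemma exists_far' {z : ℕ → ℤ × ℤ} (hz : ∀ z0, ∀ᶠ n in atTop, z n ≠ z0) :
    ∃ φ : ℕ → ℕ, StrictMono φ ∧ Function.Injective (fun n => z (φ n)) ∧
      ∀ K : ℝ, ∃ N : ℕ, ∀ k l, N ≤ k → N ≤ l → k ≠ l → ¬ Close K (z (φ k)) (z (φ l)) := by
  obtain ⟨φ, hφ, hfar⟩ := exists_far hz
  obtain ⟨M, hM⟩ := hfar 1
  refine ⟨fun n => φ (n + M), fun a b hab => hφ (by omega), ?_, ?_⟩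
  · intro k l hkl
    by_contra hne
    apply hM (k + M) (l + M) (by omega) (by omega) (by omega)
    simp only at hkl
    rw [hkl]
    refine ⟨by simp, by simp, ?_⟩
    simp [(sc_pos _).le]
  · intro K
    obtain ⟨N, hN⟩ := hfar K
    exact ⟨N, fun k l hk hl hkl => hN (k + M) (l + M) (by omega) (by omega) (by omega)⟩

lemma exists_good {z : ℕ → ℤ × ℤ} (hz : ∀ z0, ∀ᶠ n in atTop, z n ≠ z0) :
    ∃ φ : ℕ → ℕ, StrictMono φ ∧ Good (fun n => z (φ n)) := by
  obtain ⟨φ, hφ, hinj, hfar⟩ := exists_far' hz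
  let w : ℕ → (ℕ → ℕ → Bool) := fun n q t => Gd ((z (φ n)).2 / 10 ^ q) t
  obtain ⟨a, ψ, hψ, hlim⟩ := CompactSpace.tendsto_subseq w
  refine ⟨φ ∘ ψ, hφ.comp hψ, ?_, ?_, ?_⟩
  · intro q
    refine ⟨a q, ?_⟩
    intro t
    rw [tendsto_pi_nhds] at hlim
    have h1 := hlim q
    rw [tendsto_pi_nhds] at h1
    have h2 := h1 t
    rw [nhds_discrete, tendsto_pure] at h2
    exact h2
  · intro K
    obtain ⟨N, hN⟩ := hfar K
    refine ⟨N, ?_⟩
    intro k l hk hl hkl
    exact hN (ψ k) (ψ l) (hk.trans (hψ.id_le k)) (hl.trans (hψ.id_le l)) (fun h => hkl (hψ.injective h))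
  · intro k l hkl
    exact hψ.injective (hinj hkl)

lemma mk_Sq : #Sq = 𝔠 := by
  simp [Sq]

lemma exists_wo : ∃ r : Sq → Sq → Prop, ∃ _ : IsWellOrder Sq r, ∀ a, #{b // r b a} < 𝔠 := by
  obtain ⟨r, wo, h⟩ := Cardinal.exists_ord_eq Sq
  refine ⟨r, wo, ?_⟩
  intro a
  have h1 := Cardinal.card_typein_lt (r := r) a h
  rw [Ordinal.card_typein, mk_Sq] at h1
  exact h1

lemma exists_codes (r : Sq → Sq → Prop) [wo : IsWellOrder Sq r] (hr : ∀ a, #{b // r b a} < 𝔠)
    (B : Sq → Set (ℕ → Bool)) (hB : ∀ a, (B a).Countable) :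
    ∃ c : Sq → (ℕ → Bool), ∀ a, c a ∉ B a ∧ ∀ b, r b a → c a ∉ B b ∧ c a ≠ c b := by
  have wf : WellFounded r := IsWellFounded.wf
  let F : ∀ a : Sq, (∀ b, r b a → (ℕ → Bool)) → (ℕ → Bool) := fun a ih =>
    Classical.epsilon (fun x : ℕ → Bool => x ∉ B a ∧ ∀ b (h : r b a), x ∉ B b ∧ x ≠ ih b h)
  let c : Sq → (ℕ → Bool) := wf.fix F
  have hc : ∀ a, c a = F a (fun b _ => c b) := fun a => wf.fix_eq F a
  refine ⟨c, ?_⟩
  intro a
  have hex : ∃ x : ℕ → Bool, x ∉ B a ∧ ∀ b (_ : r b a), x ∉ B b ∧ x ≠ c b := by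
    let S : Set (ℕ → Bool) := B a ∪ ⋃ b : {b // r b a}, (B b.1 ∪ {c b.1})
    have hS : #S < #(ℕ → Bool) := by
      have h0 : #(ℕ → Bool) = 𝔠 := by simp
      rw [h0]
      refine (Cardinal.mk_union_le _ _).trans_lt ?_
      apply Cardinal.add_lt_of_lt Cardinal.aleph0_le_continuum
      · exact (Cardinal.le_aleph0_iff_set_countable.mpr (hB a)).trans_lt Cardinal.aleph0_lt_continuum
      · refine (Cardinal.mk_iUnion_le _).trans_lt ?_
        apply Cardinal.mul_lt_of_lt Cardinal.aleph0_le_continuum (hr a)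
        refine lt_of_le_of_lt ?_ Cardinal.aleph0_lt_continuum
        apply ciSup_le'
        intro b
        exact Cardinal.le_aleph0_iff_set_countable.mpr ((hB b.1).union (Set.countable_singleton _))
    have hne : S ≠ Set.univ := by
      intro h
      rw [h, Cardinal.mk_univ] at hS
      exact lt_irrefl _ hS
    obtain ⟨x, hx⟩ := (Set.ne_univ_iff_exists_notMem S).mp hne
    refine ⟨x, fun h => hx (Or.inl h), ?_⟩
    intro b hb
    refine ⟨fun h => hx (Or.inr (mem_iUnion.mpr ⟨⟨b, hb⟩, Or.inl h⟩)), ?_⟩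
    intro h
    exact hx (Or.inr (mem_iUnion.mpr ⟨⟨b, hb⟩, Or.inr h⟩))
  have := Classical.epsilon_spec hex
  rw [hc a]
  exact this

/-- a system of lines as required for the topological construction -/
structure Sys where
  A : Type
  ne : Nonempty A
  e : A → ℕ → Bool → ℝ
  D : A → ℕ → ℝ
  D_pos : ∀ a k, 0 < D a k
  e_true : ∀ a k, e a k true = e a k false + D a k
  inj : ∀ a k σ a' k' σ', e a k σ = e a' k' σ' → a = a' ∧ k = k' ∧ σ = σ'
  F2 : ∀ a C, 0 < C → ∀ᶠ k in atTop, ∀ σ, 1 / C ≤ D a k → C < |e a k σ|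
  F3 : ∀ a b l σ' C, 0 ≤ C → ∀ᶠ k in atTop, ∀ σ, C * min (D a k) 1 < |e a k σ - e b l σ'|
  F4 : ∀ a b C, 0 ≤ C → ∃ N : ℕ, ∀ k l, N ≤ k → N ≤ l → (a, k) ≠ (b, l) → ∀ σ σ',
    C * min (D a k) (D b l) < |e a k σ - e b l σ'|
  F5 : ∀ p : ℕ → ℝ × ℝ, (∃ K, IsCompact K ∧ ∃ᶠ n in atTop, p n ∈ K) ∨
    ∃ a C, ∃ᶠ n in atTop, ∃ k σ, Real.exp (p n).2 ≤ C * D a k ∧
      |(p n).1 - e a k σ| ≤ C * Real.exp (p n).2

/-- net point near `(y, exp u)` -/
noncomputable def net (p : ℝ × ℝ) : ℤ × ℤ :=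
  (-⌊p.2 / Real.log 10⌋, ⌊p.1 * (10 : ℝ) ^ (-⌊p.2 / Real.log 10⌋)⌋)

lemma net_sc (p : ℝ × ℝ) : sc (net p) ≤ Real.exp p.2 ∧ Real.exp p.2 ≤ 10 * sc (net p) := by
  have hl : 0 < Real.log 10 := Real.log_pos (by norm_num)
  have h1 : sc (net p) = Real.exp (⌊p.2 / Real.log 10⌋ * Real.log 10) := by
    unfold sc net
    simp only [neg_neg]
    rw [mul_comm, Real.exp_mul, Real.exp_log (by norm_num), Real.rpow_intCast]
  have h2 : 10 * sc (net p) = Real.exp ((⌊p.2 / Real.log 10⌋ + 1) * Real.log 10) := by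
    rw [h1, add_mul, one_mul, Real.exp_add, Real.exp_log (by norm_num)]
    ring
  rw [h2, h1]
  constructor
  · apply Real.exp_le_exp.mpr
    have := Int.floor_le (p.2 / Real.log 10)
    rw [le_div_iff₀ hl] at this
    exact this
  · apply Real.exp_le_exp.mpr
    have := (Int.lt_floor_add_one (p.2 / Real.log 10)).le
    rw [div_le_iff₀ hl] at this
    exact this

lemma net_yp (p : ℝ × ℝ) : |p.1 - yp (net p)| ≤ sc (net p) := by
  unfold yp sc net
  simp only [neg_neg]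
  set n := ⌊p.2 / Real.log 10⌋
  have hp : (0 : ℝ) < (10 : ℝ) ^ n := by positivity
  have h1 := Int.floor_le (p.1 * (10 : ℝ) ^ (-n))
  have h2 := (Int.lt_floor_add_one (p.1 * (10 : ℝ) ^ (-n))).le
  have h3 : p.1 = (p.1 * (10 : ℝ) ^ (-n)) * (10 : ℝ) ^ n := by
    rw [mul_assoc, ← zpow_add₀ (by norm_num)]; simp
  rw [abs_le]
  constructor
  · have : (⌊p.1 * (10 : ℝ) ^ (-n)⌋ : ℝ) * (10 : ℝ) ^ n ≤ p.1 := by
      conv_rhs => rw [h3]
      gcongr
    linarith
  · have : p.1 ≤ (⌊p.1 * (10 : ℝ) ^ (-n)⌋ + 1 : ℝ) * (10 : ℝ) ^ n := by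
      conv_lhs => rw [h3]
      gcongr
    linarith

lemma net_ne {p : ℕ → ℝ × ℝ} (hp : ¬ ∃ K, IsCompact K ∧ ∃ᶠ n in atTop, p n ∈ K) (z0 : ℤ × ℤ) :
    ∀ᶠ n in atTop, net (p n) ≠ z0 := by
  by_contra hcon
  rw [not_eventually] at hcon
  apply hp
  refine ⟨Set.Icc (yp z0 - sc z0) (yp z0 + sc z0) ×ˢ
    Set.Icc (Real.log (sc z0)) (Real.log (10 * sc z0)), isCompact_Icc.prod isCompact_Icc, ?_⟩
  apply hcon.mono
  intro n hn
  push Not at hn
  have h1 := net_sc (p n)
  have h2 := net_yp (p n)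
  rw [hn] at h1 h2
  have hs := sc_pos z0
  rw [abs_le] at h2
  refine ⟨⟨by linarith, by linarith⟩, ?_, ?_⟩
  · rw [Real.log_le_iff_le_exp hs]; exact h1.1
  · rw [Real.le_log_iff_exp_le (by positivity)]; exact h1.2

theorem exists_sys : Nonempty Sys := by
  obtain ⟨r, wo, hr⟩ := exists_wo
  obtain ⟨c, hc⟩ := exists_codes r hr Bad Bad_countable
  have wf : WellFounded r := IsWellFounded.wf
  let act : Sq → Prop := wf.fix (fun a ih => Good a ∧ ∀ b (h : r b a), ih b h → ¬ Capt a b (c b))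
  have hact : ∀ a, act a ↔ (Good a ∧ ∀ b, r b a → act b → ¬ Capt a b (c b)) := by
    intro a
    have := wf.fix_eq (fun a (ih : ∀ b, r b a → Prop) => Good a ∧ ∀ b (h : r b a), ih b h → ¬ Capt a b (c b)) a
    change act a = _ at this
    rw [this]
  have hcinj : ∀ a b, c a = c b → a = b := by
    intro a b h
    rcases trichotomous_of r a b with h1 | h1 | h1
    · exact absurd h.symm ((hc b).2 a h1).2
    · exact h1
    · exact absurd h ((hc a).2 b h1).2
  have HF5 : ∀ p : ℕ → ℝ × ℝ, (∃ K, IsCompact K ∧ ∃ᶠ n in atTop, p n ∈ K) ∨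
      ∃ a : {a // act a}, ∃ C, ∃ᶠ n in atTop, ∃ k σ, Real.exp (p n).2 ≤ C * (sc (a.1 k) / 100) ∧
        |(p n).1 - ft (a.1 k) σ (c a.1)| ≤ C * Real.exp (p n).2 := by
    intro p
    by_cases hp : ∃ K, IsCompact K ∧ ∃ᶠ n in atTop, p n ∈ K
    · exact Or.inl hp
    right
    obtain ⟨φ, hφ, hg⟩ := exists_good (z := fun n => net (p n)) (net_ne hp)
    set a : Sq := fun n => net (p (φ n)) with ha
    by_cases hA : act a
    · refine ⟨⟨a, hA⟩, 1000, ?_⟩
      have hall : ∀ i, ∃ k σ, Real.exp (p (φ i)).2 ≤ 1000 * (sc (a k) / 100) ∧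
          |(p (φ i)).1 - ft (a k) σ (c a)| ≤ 1000 * Real.exp (p (φ i)).2 := by
        intro i
        refine ⟨i, false, ?_, ?_⟩
        · have := (net_sc (p (φ i))).2
          change _ ≤ 10 * sc (a i) at this
          linarith
        · have h1 := (net_sc (p (φ i))).1
          have h2 := net_yp (p (φ i))
          have h3 := yp_ft (a i) false (c a)
          change sc (a i) ≤ _ at h1
          change |_ - yp (a i)| ≤ sc (a i) at h2
          have h4 := abs_sub_le (p (φ i)).1 (yp (a i)) (ft (a i) false (c a))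
          have h5 := sc_pos (a i)
          linarith
      exact hφ.tendsto_atTop.frequently (Eventually.of_forall hall).frequently
    · rw [hact] at hA
      push Not at hA
      obtain ⟨b, hb, hactb, C, hC⟩ := hA hg
      refine ⟨⟨b, hactb⟩, 1000 * (1 + C), ?_⟩
      have hall : ∃ᶠ i in atTop, ∃ k σ, Real.exp (p (φ i)).2 ≤ 1000 * (1 + C) * (sc (b k) / 100) ∧
          |(p (φ i)).1 - ft (b k) σ (c b)| ≤ 1000 * (1 + C) * Real.exp (p (φ i)).2 := by
        apply hC.mono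
        rintro i ⟨k, σ, h1, h2⟩
        have e1 := net_sc (p (φ i))
        have e2 := net_yp (p (φ i))
        change sc (a i) ≤ _ ∧ _ ≤ 10 * sc (a i) at e1
        change |_ - yp (a i)| ≤ sc (a i) at e2
        have pa := sc_pos (a i)
        have pb := sc_pos (b k)
        have hCpos : 0 < C := by
          by_contra hC0
          push Not at hC0
          nlinarith
        refine ⟨k, σ, ?_, ?_⟩
        · nlinarith [e1.2]
        · have h4 := abs_sub_le (p (φ i)).1 (yp (a i)) (ft (b k) σ (c b))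
          have h5 : C * sc (a i) ≤ C * Real.exp (p (φ i)).2 := by gcongr; exact e1.1
          have h6 := Real.exp_pos (p (φ i)).2
          nlinarith [e1.1]
      exact hφ.tendsto_atTop.frequently hall
  refine ⟨{ A := {a // act a}, ne := ?_, e := fun a k σ => ft (a.1 k) σ (c a.1),
            D := fun a k => sc (a.1 k) / 100, D_pos := ?_, e_true := ?_, inj := ?_, F2 := ?_, F3 := ?_,
            F4 := ?_, F5 := HF5 }⟩
  · rcases HF5 (fun n => ((n : ℝ), 0)) with ⟨K, hK, hf⟩ | ⟨a, -⟩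
    · exfalso
      obtain ⟨R, hR⟩ := hK.isBounded.exists_norm_le
      obtain ⟨N, hN⟩ := exists_nat_gt R
      obtain ⟨n, hn, hnK⟩ := (frequently_atTop.mp hf) N
      have h1 := hR _ hnK
      have h2 : (n : ℝ) ≤ ‖((n : ℝ), (0 : ℝ))‖ := by
        refine le_trans ?_ (norm_fst_le _)
        simp
      have h3 : (N : ℝ) ≤ n := by exact_mod_cast hn
      linarith
    · exact ⟨a⟩
  · intro a k; have := sc_pos (a.1 k); positivity
  · intro a k
    have := ft_diff (a.1 k) (c a.1)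
    linarith
  · intro a k σ a' k' σ' h
    obtain ⟨h1, h2, h3⟩ := ft_inj h
    have h4 : a.1 = a'.1 := hcinj _ _ h3
    have h5 : a = a' := Subtype.ext h4
    subst h5
    exact ⟨rfl, ((hact a.1).mp a.2).1.2.2 h1, h2⟩
  · intro a C hC
    have hg := ((hact a.1).mp a.2).1
    filter_upwards [F2 hg (c a.1) C hC] with k hk σ h
    apply hk σ
    have := sc_pos (a.1 k)
    linarith
  · intro a b l σ' C hC
    have hga := ((hact a.1).mp a.2).1
    have key : ∀ᶠ k in atTop, ∀ σ, C * min (sc (a.1 k)) 1 <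
        |ft (a.1 k) σ (c a.1) - ft (b.1 l) σ' (c b.1)| := by
      rcases trichotomous_of r a.1 b.1 with h1 | h1 | h1
      · exact F3_ge hga ((hc b.1).2 a.1 h1).1 l σ' C hC
      · exact F3_ge hga (h1 ▸ (hc a.1).1) l σ' C hC
      · exact F3_lt hga (((hact a.1).mp a.2).2 b.1 h1 b.2) l σ' C hC
    filter_upwards [key] with k hk σ
    refine lt_of_le_of_lt ?_ (hk σ)
    have := sc_pos (a.1 k)
    gcongr
    linarith
  · intro a b C hC
    have hga := ((hact a.1).mp a.2).1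
    have hgb := ((hact b.1).mp b.2).1
    have key : ∃ N : ℕ, ∀ k l, N ≤ k → N ≤ l → (a, k) ≠ (b, l) → ∀ σ σ',
        C * min (sc (a.1 k)) (sc (b.1 l)) < |ft (a.1 k) σ (c a.1) - ft (b.1 l) σ' (c b.1)| := by
      rcases trichotomous_of r a.1 b.1 with h1 | h1 | h1
      · obtain ⟨N, hN⟩ := F4_lt (ca := c b.1) hga ((hc b.1).2 a.1 h1).1
          (((hact b.1).mp b.2).2 a.1 h1 a.2) C hC
        refine ⟨N, fun k l hk hl _ σ σ' => ?_⟩
        rw [min_comm, abs_sub_comm]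
        exact hN l k hl hk σ' σ
      · have hab : a = b := Subtype.ext h1
        subst hab
        obtain ⟨N, hN⟩ := F4_self hga (hc a.1).1 C hC
        refine ⟨N, fun k l hk hl hkl σ σ' => hN k l hk hl (fun h => hkl (by rw [h])) σ σ'⟩
      · obtain ⟨N, hN⟩ := F4_lt (ca := c a.1) hgb ((hc a.1).2 b.1 h1).1
          (((hact a.1).mp a.2).2 b.1 h1 b.2) C hC
        exact ⟨N, fun k l hk hl _ σ σ' => hN k l hk hl σ σ'⟩
    obtain ⟨N, hN⟩ := key
    refine ⟨N, fun k l hk hl hkl σ σ' => lt_of_le_of_lt ?_ (hN k l hk hl hkl σ σ')⟩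
    have h1 := sc_pos (a.1 k)
    have h2 := sc_pos (b.1 l)
    gcongr
    · linarith
    · linarith

end Pool.Agent.Helper46.PC
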