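import Pool.Agent.Helper46.PC.Space

/-!
Separation of the germs, injectivity of the parametrisations, disjoint neighbourhoods.
-/

set_option autoImplicit false

namespace Pool.Agent.Helper46.PC

open Set Filter Topology

variable (S : Sys)

/-- germs: a foot or the tail of a sequence of lines -/
inductive Germ (S : Sys) : Type
  | foot (a : S.A) (k : ℕ) (σ : Bool) : Germ S
  | tail (a : S.A) : Germ S

/-- the part of the half-plane near a germ -/
def gset (C δ : ℝ) (N : ℕ) : Germ S → Set (ℝ × ℝ)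
  | Germ.foot a k σ => {p | Real.exp p.2 ≤ δ ∧ |p.1 - S.e a k σ| ≤ C * Real.exp p.2}
  | Germ.tail a => {p | ∃ k ≥ N, Real.exp p.2 ≤ C * S.D a k ∧ ∃ σ, |p.1 - S.e a k σ| ≤ C * Real.exp p.2}

lemma gset_mono {C δ δ' : ℝ} {N N' : ℕ} (hδ : δ ≤ δ') (hN : N' ≤ N) (g : Germ S) :
    gset S C δ N g ⊆ gset S C δ' N' g := by
  cases g with
  | foot a k σ => rintro p ⟨h1, h2⟩; exact ⟨h1.trans hδ, h2⟩
  | tail a => rintro p ⟨k, hk, h⟩; exact ⟨k, hN.trans hk, h⟩

lemma two_near {y e e' c : ℝ} (h : |y - e| ≤ c) (h' : |y - e'| ≤ c) : |e - e'| ≤ 2 * c := by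
  rw [abs_le] at *
  constructor <;> linarith [h.1, h.2, h'.1, h'.2]

lemma gsep_ff {C : ℝ} (hC : 0 < C) {a b : S.A} {k l : ℕ} {σ σ' : Bool} (h : S.e a k σ ≠ S.e b l σ') :
    ∃ δ > 0, ∃ N : ℕ, ∀ p, p ∈ gset S C δ N (Germ.foot a k σ) → p ∉ gset S C δ N (Germ.foot b l σ') := by
  have hpos : 0 < |S.e a k σ - S.e b l σ'| := abs_pos.mpr (sub_ne_zero.mpr h)
  refine ⟨|S.e a k σ - S.e b l σ'| / (4 * C), by positivity, 0, ?_⟩
  rintro p ⟨h1, h2⟩ ⟨_, h3⟩
  have h4 := two_near h2 h3
  have h5 : 2 * (C * Real.exp p.2) ≤ 2 * (C * (|S.e a k σ - S.e b l σ'| / (4 * C))) := by gcongr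
  have h6 : 2 * (C * (|S.e a k σ - S.e b l σ'| / (4 * C))) = |S.e a k σ - S.e b l σ'| / 2 := by
    field_simp; ring
  linarith

lemma gsep_ft {C : ℝ} (hC : 0 < C) {a b : S.A} {l : ℕ} {σ' : Bool} :
    ∃ δ > 0, ∃ N : ℕ, ∀ p, p ∈ gset S C δ N (Germ.foot b l σ') → p ∉ gset S C δ N (Germ.tail a) := by
  obtain ⟨N, hN⟩ := eventually_atTop.mp (S.F3 a b l σ' (2 * C * (1 + C)) (by positivity))
  refine ⟨1, one_pos, N, ?_⟩
  rintro p ⟨h1, h2⟩ ⟨k, hk, h3, σ, h4⟩
  have h5 := two_near h4 h2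
  have h6 := hN k hk σ
  have hD := S.D_pos a k
  have he := Real.exp_pos p.2
  have h7 : 2 * (C * Real.exp p.2) ≤ 2 * C * (1 + C) * min (S.D a k) 1 := by
    rcases min_cases (S.D a k) 1 with ⟨h8, _⟩ | ⟨h8, _⟩ <;> rw [h8]
    · nlinarith [mul_pos hC hD, mul_le_mul_of_nonneg_left h3 hC.le]
    · nlinarith [mul_le_mul_of_nonneg_left h1 hC.le]
  linarith

lemma gsep_tt {C : ℝ} (hC : 0 < C) {a b : S.A} (hab : a ≠ b) :
    ∃ δ > 0, ∃ N : ℕ, ∀ p, p ∈ gset S C δ N (Germ.tail a) → p ∉ gset S C δ N (Germ.tail b) := by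
  obtain ⟨N, hN⟩ := S.F4 a b (2 * C * C) (by positivity)
  refine ⟨1, one_pos, N, ?_⟩
  rintro p ⟨k, hk, h3, σ, h4⟩ ⟨l, hl, h3', σ', h4'⟩
  have h5 := two_near h4 h4'
  have h6 := hN k l hk hl (fun h => hab (by simpa using congrArg Prod.fst h)) σ σ'
  have h7 : 2 * (C * Real.exp p.2) ≤ 2 * C * C * min (S.D a k) (S.D b l) := by
    rcases min_cases (S.D a k) (S.D b l) with ⟨h8, _⟩ | ⟨h8, _⟩ <;> rw [h8]
    · nlinarith [mul_le_mul_of_nonneg_left h3 hC.le]
    · nlinarith [mul_le_mul_of_nonneg_left h3' hC.le]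
  linarith

lemma gsep {C : ℝ} (hC : 0 < C) {g g' : Germ S} (h : g ≠ g') :
    ∃ δ > 0, ∃ N : ℕ, ∀ p, p ∈ gset S C δ N g → p ∉ gset S C δ N g' := by
  cases g with
  | foot a k σ =>
    cases g' with
    | foot b l σ' =>
      apply gsep_ff S hC
      intro heq
      obtain ⟨h1, h2, h3⟩ := S.inj _ _ _ _ _ _ heq
      exact h (by rw [h1, h2, h3])
    | tail b => exact gsep_ft S hC
  | tail a =>
    cases g' with
    | foot b l σ' =>
      obtain ⟨δ, hδ, N, hN⟩ := gsep_ft S hC (a := a) (b := b) (l := l) (σ' := σ')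
      exact ⟨δ, hδ, N, fun p h1 h2 => hN p h2 h1⟩
    | tail b =>
      apply gsep_tt S hC
      intro h1
      exact h (by rw [h1])

/-- left germ of a line -/
def lg (a : S.A) (n : ℕ) : Germ S := if n = 0 then Germ.tail a else Germ.foot a (n - 1) true
/-- right germ of a line -/
def rg (a : S.A) (n : ℕ) : Germ S := Germ.foot a n false

lemma lg_ne_rg (a b : S.A) (n m : ℕ) : lg S a n ≠ rg S b m := by
  unfold lg rg
  split_ifs <;> simp

lemma rg_inj {a b : S.A} {n m : ℕ} (h : rg S a n = rg S b m) : a = b ∧ n = m := by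
  unfold rg at h
  simp only [Germ.foot.injEq, and_true] at h
  exact h

lemma lg_inj {a b : S.A} {n m : ℕ} (h : lg S a n = lg S b m) : a = b ∧ n = m := by
  unfold lg at h
  split_ifs at h with h1 h2 h2
  · simp only [Germ.tail.injEq] at h
    exact ⟨h, by omega⟩
  · simp only [Germ.foot.injEq, and_true] at h
    exact ⟨h.1, by omega⟩

lemma Cst_pos {R : ℝ} (hR : 0 ≤ R) : 0 < Cst R := by unfold Cst; positivity

lemma tube_exact (a : S.A) (k : ℕ) {R : ℝ} {t z : ℝ} (h : 0 < t) (h1 : t < 1)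
    (hz : |z| ≤ R) : Real.exp (ph S a k (t, z)).2 ≤ Cst R * S.D a k ∧
      ∃ σ, |(ph S a k (t, z)).1 - S.e a k σ| ≤ Cst R * Real.exp (ph S a k (t, z)).2 := by
  have hR : 0 ≤ R := (abs_nonneg z).trans hz
  have hC := Cst_pos hR
  have hD := S.D_pos a k
  rcases le_total t (1 / 2) with h2 | h2
  · obtain ⟨h3, h4⟩ := tube_left (e := S.e a k false) hD (p := (t, z)) hz h h2
    refine ⟨h4.trans ?_, false, h3⟩
    simp only
    have : 0 < Cst R * S.D a k := by positivity
    nlinarith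
  · obtain ⟨h3, h4⟩ := tube_right (e := S.e a k false) hD (p := (t, z)) hz h2 h1
    refine ⟨h4.trans ?_, true, ?_⟩
    · simp only
      have : 0 < Cst R * S.D a k := by positivity
      nlinarith
    · rw [S.e_true]; exact h3

lemma tube_mem (a : S.A) (k : ℕ) {R : ℝ} {δ : ℝ} {N : ℕ} (hk : N ≤ k) {t z : ℝ} (h : 0 < t) (h1 : t < 1)
    (hz : |z| ≤ R) : ph S a k (t, z) ∈ gset S (Cst R) δ N (Germ.tail a) :=
  ⟨k, hk, tube_exact S a k h h1 hz⟩

lemma Psi_cases (a : S.A) {T z R : ℝ} {δ : ℝ} {N : ℕ} (hT : (N : ℝ) < T) (hz : |z| ≤ R) :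
    (∃ k : ℕ, N < k ∧ T = k ∧ Psi S a (T, z) = lp S a k z) ∨
    (∃ k : ℕ, N ≤ k ∧ (k : ℝ) < T ∧ T < k + 1 ∧ Psi S a (T, z) = hp S (ph S a k (T - k, z)) ∧
      ph S a k (T - k, z) ∈ gset S (Cst R) δ N (Germ.tail a)) := by
  have hN : (0 : ℝ) ≤ N := Nat.cast_nonneg N
  rcases pos_cases (show 0 < T by linarith) with ⟨n, hn, rfl⟩ | ⟨n, h1, h2⟩
  · left
    exact ⟨n, by exact_mod_cast hT, rfl, Psi_int S a n z⟩
  · right
    have hNn : N ≤ n := by
      have : (N : ℝ) < n + 1 := by linarith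
      have : N < n + 1 := by exact_mod_cast this
      omega
    exact ⟨n, hNn, h1, h2, Psi_frac S a n h1 h2 z, tube_mem S a n hNn (by linarith) (by linarith) hz⟩

/-- right side of a line -/
lemma side_right (a : S.A) (n : ℕ) {R : ℝ} (hR : 0 ≤ R) {δ : ℝ} (hδ : 0 < δ) (N : ℕ) :
    ∃ ε > 0, ε ≤ 1 / 2 ∧ ∀ x z, 0 < x → x < ε → |z| ≤ R →
      chi S a n (x, z) = hp S (ph S a n (x, z)) ∧ ph S a n (x, z) ∈ gset S (Cst R) δ N (rg S a n) := by
  have hC := Cst_pos hR
  have hD := S.D_pos a n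
  refine ⟨min (1 / 2) (δ / (Cst R * S.D a n)), lt_min (by norm_num) (by positivity), min_le_left _ _, ?_⟩
  intro x z hx hxe hz
  have hx2 : x < 1 / 2 := hxe.trans_le (min_le_left _ _)
  have hx3 : x < δ / (Cst R * S.D a n) := hxe.trans_le (min_le_right _ _)
  constructor
  · rcases Nat.eq_zero_or_pos n with rfl | hn
    · rw [chi_zero_eq]
      simp only [Function.comp, tau, hx.le, if_true]
      have := Psi_frac S a 0 (T := x) (by simpa using hx) (by simp; linarith) z
      simpa using this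
    · rw [chi_succ_eq S a hn]
      simp only [Function.comp]
      have := Psi_frac S a n (T := n + x) (by linarith) (by linarith) z
      simpa using this
  · obtain ⟨h3, h4⟩ := tube_left (e := S.e a n false) hD (p := (x, z)) hz hx hx2.le
    refine ⟨h4.trans ?_, h3⟩
    simp only
    rw [lt_div_iff₀ (by positivity)] at hx3
    linarith

/-- left side of a line, `n > 0` -/
lemma side_left (a : S.A) {n : ℕ} (hn : 0 < n) {R : ℝ} (hR : 0 ≤ R) {δ : ℝ} (hδ : 0 < δ) (N : ℕ) :
    ∃ ε > 0, ε ≤ 1 / 2 ∧ ∀ x z, x < 0 → -ε < x → |z| ≤ R →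
      chi S a n (x, z) = hp S (ph S a (n - 1) (1 + x, z)) ∧
      ph S a (n - 1) (1 + x, z) ∈ gset S (Cst R) δ N (lg S a n) := by
  have hC := Cst_pos hR
  obtain ⟨m, rfl⟩ : ∃ m, n = m + 1 := ⟨n - 1, by omega⟩
  have hD := S.D_pos a m
  refine ⟨min (1 / 2) (δ / (Cst R * S.D a m)), lt_min (by norm_num) (by positivity), min_le_left _ _, ?_⟩
  intro x z hx hxe hz
  have hx2 : -x < 1 / 2 := by have := min_le_left (1 / 2) (δ / (Cst R * S.D a m)); linarith
  have hx3 : -x < δ / (Cst R * S.D a m) := by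
    have := min_le_right (1 / 2) (δ / (Cst R * S.D a m)); linarith
  simp only [Nat.add_sub_cancel]
  constructor
  · rw [chi_succ_eq S a hn]
    simp only [Function.comp]
    have := Psi_frac S a m (T := ((m + 1 : ℕ) : ℝ) + x) (by push_cast; linarith) (by push_cast; linarith) z
    rw [this]
    congr 3
    push_cast; ring
  · obtain ⟨h3, h4⟩ := tube_right (e := S.e a m false) hD (p := (1 + x, z)) hz (by simp only; linarith)
      (by simp only; linarith)
    have hlg : lg S a (m + 1) = Germ.foot a m true := by simp [lg]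
    rw [hlg]
    refine ⟨h4.trans ?_, ?_⟩
    · simp only
      rw [lt_div_iff₀ (by positivity)] at hx3
      nlinarith
    · rw [S.e_true]; exact h3

/-- left side of a line, `n = 0` -/
lemma side_left_zero (a : S.A) (N : ℕ) :
    ∃ ε > 0, ε ≤ 1 / 2 ∧ ∀ x z : ℝ, x < 0 → -ε < x →
      chi S a 0 (x, z) = Psi S a (-1 / x - 1, z) ∧ (N : ℝ) < -1 / x - 1 := by
  refine ⟨1 / (N + 2), by positivity, ?_, ?_⟩
  · rw [div_le_div_iff₀ (by positivity) (by norm_num)]
    have : (0 : ℝ) ≤ N := Nat.cast_nonneg N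
    linarith
  · intro x z hx hxe
    constructor
    · rw [chi_zero_eq]
      simp [tau, hx.not_ge]
    · have h1 : (N : ℝ) + 2 < -1 / x := by
        rw [lt_div_iff_of_neg hx]
        have h2 : -x < 1 / (N + 2) := by linarith
        rw [lt_div_iff₀ (by positivity)] at h2
        linarith
      linarith

/-- standard boxes -/
def box (ε R : ℝ) : Set (ℝ × ℝ) := {p | |p.1| < ε ∧ |p.2| < R}

lemma box_open (ε R : ℝ) : IsOpen (box ε R) := by
  have h1 : IsOpen {p : ℝ × ℝ | |p.1| < ε} := isOpen_lt (continuous_fst.abs) continuous_const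
  have h2 : IsOpen {p : ℝ × ℝ | |p.2| < R} := isOpen_lt (continuous_snd.abs) continuous_const
  exact h1.inter h2

/-- injectivity of the parametrisations -/
lemma chi_inj (a : S.A) (n : ℕ) {R : ℝ} (hR : 0 ≤ R) :
    ∃ ε > 0, ε ≤ 1 / 2 ∧ InjOn (chi S a n) (box ε R) := by
  have hC := Cst_pos hR
  obtain ⟨δ, hδ, N0, hsep⟩ := gsep S hC (lg_ne_rg S a a n n)
  obtain ⟨N1, hN1⟩ := S.F4 a a (2 * Cst R * Cst R) (by positivity)
  set N := max N0 N1 with hN
  obtain ⟨ε1, hε1, hε1', hr⟩ := side_right S a n hR hδ N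
  have hsep' : ∀ p, p ∈ gset S (Cst R) δ N (lg S a n) → p ∉ gset S (Cst R) δ N (rg S a n) := by
    intro p h1 h2
    exact hsep p (gset_mono S le_rfl (le_max_left _ _) _ h1) (gset_mono S le_rfl (le_max_left _ _) _ h2)
  rcases Nat.eq_zero_or_pos n with rfl | hn
  · obtain ⟨ε2, hε2, hε2', hl⟩ := side_left_zero S a N
    refine ⟨min ε1 ε2, lt_min hε1 hε2, (min_le_left _ _).trans hε1', ?_⟩
    have hlg : lg S a 0 = Germ.tail a := by simp [lg]
    rw [hlg] at hsep'
    -- description of left points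
    have hL : ∀ x z : ℝ, x < 0 → -ε2 < x → |z| ≤ R →
        (∃ k : ℕ, N < k ∧ (-1 / x - 1) = k ∧ chi S a 0 (x, z) = lp S a k z) ∨
        (∃ k : ℕ, N ≤ k ∧ (k : ℝ) < (-1 / x - 1) ∧ (-1 / x - 1) < k + 1 ∧
          chi S a 0 (x, z) = hp S (ph S a k ((-1 / x - 1) - k, z)) ∧
          ph S a k ((-1 / x - 1) - k, z) ∈ gset S (Cst R) δ N (Germ.tail a)) := by
      intro x z hx hxe hz
      obtain ⟨h1, h2⟩ := hl x z hx hxe
      rw [h1]
      exact Psi_cases S a h2 hz
    have hT : ∀ x x' : ℝ, x < 0 → x' < 0 → -1 / x - 1 = -1 / x' - 1 → x = x' := by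
      intro x x' hx hx' h
      have h1 : -1 / x = -1 / x' := by linarith
      have h2 : x ≠ 0 := hx.ne
      have h3 : x' ≠ 0 := hx'.ne
      field_simp at h1
      linarith
    rintro ⟨x, z⟩ ⟨hx, hz⟩ ⟨x', z'⟩ ⟨hx', hz'⟩ heq
    simp only at hx hz hx' hz'
    wlog hle : x ≤ x' generalizing x z x' z'
    · exact (this x' z' hx' hz' x z hx hz heq.symm (by linarith)).symm
    rw [lt_min_iff, abs_lt, abs_lt] at hx hx'
    rcases lt_trichotomy x 0 with h | h | h
    · rcases lt_trichotomy x' 0 with h' | h' | h'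
      · -- both left
        rcases hL x z h hx.2.1 hz.le with ⟨k, hk, hk1, hk2⟩ | ⟨k, hk, hk1, hk2, hk3, hk4⟩
        · rcases hL x' z' h' hx'.2.1 hz'.le with ⟨l, hl', hl1, hl2⟩ | ⟨l, hl', hl1, hl2, hl3, hl4⟩
          · rw [hk2, hl2] at heq
            obtain ⟨-, h1, h2⟩ := lp_inj S heq
            subst h1 h2
            rw [hT x x' h h' (hk1.trans hl1.symm)]
          · rw [hk2, hl3] at heq
            exact absurd heq.symm (hp_ne_lp S)
        · rcases hL x' z' h' hx'.2.1 hz'.le with ⟨l, hl', hl1, hl2⟩ | ⟨l, hl', hl1, hl2, hl3, hl4⟩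
          · rw [hk3, hl2] at heq
            exact absurd heq (hp_ne_lp S)
          · rw [hk3, hl3] at heq
            have heq' := hp_inj S heq
            by_cases hkl : k = l
            · subst hkl
              obtain ⟨h1, h2⟩ := ph_inj S a k (by linarith) (by linarith) (by linarith) (by linarith) heq'
              rw [hT x x' h h' (by linarith), h2]
            · exfalso
              obtain ⟨e1, σ, e2⟩ := tube_exact S a k (R := R)
                (t := -1 / x - 1 - k) (z := z) (by linarith) (by linarith) hz.le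
              obtain ⟨e1', σ', e2'⟩ := tube_exact S a l (R := R)
                (t := -1 / x' - 1 - l) (z := z') (by linarith) (by linarith) hz'.le
              rw [← heq'] at e1' e2'
              have h5 := two_near e2 e2'
              have h6 := hN1 k l ((le_max_right _ _).trans hk) ((le_max_right _ _).trans hl')
                (fun h => hkl (by simpa using congrArg Prod.snd h)) σ σ'
              have h7 : 2 * (Cst R * Real.exp (ph S a k (-1 / x - 1 - k, z)).2) ≤
                  2 * Cst R * Cst R * min (S.D a k) (S.D a l) := by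
                rcases min_cases (S.D a k) (S.D a l) with ⟨h8, _⟩ | ⟨h8, _⟩ <;> rw [h8]
                · nlinarith [mul_le_mul_of_nonneg_left e1 hC.le]
                · nlinarith [mul_le_mul_of_nonneg_left e1' hC.le]
              linarith
      · subst h'
        rw [chi_center] at heq
        rcases hL x z h hx.2.1 hz.le with ⟨k, hk, hk1, hk2⟩ | ⟨k, hk, hk1, hk2, hk3, hk4⟩
        · rw [hk2] at heq
          obtain ⟨-, h1, h2⟩ := lp_inj S heq
          omega
        · rw [hk3] at heq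
          exact absurd heq (hp_ne_lp S)
      · obtain ⟨e1, e2⟩ := hr x' z' h' hx'.1.2 hz'.le
        rw [e1] at heq
        rcases hL x z h hx.2.1 hz.le with ⟨k, hk, hk1, hk2⟩ | ⟨k, hk, hk1, hk2, hk3, hk4⟩
        · rw [hk2] at heq
          exact absurd heq.symm (hp_ne_lp S)
        · rw [hk3] at heq
          have := hp_inj S heq
          rw [this] at hk4
          exact absurd e2 (hsep' _ hk4)
    · subst h
      rcases hle.lt_or_eq with h' | h'
      · obtain ⟨e1, e2⟩ := hr x' z' h' hx'.1.2 hz'.le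
        rw [e1, chi_center] at heq
        exact absurd heq.symm (hp_ne_lp S)
      · subst h'
        rw [chi_center, chi_center] at heq
        rw [(lp_inj S heq).2.2]
    · have h' : 0 < x' := by linarith
      obtain ⟨e1, e2⟩ := hr x' z' h' hx'.1.2 hz'.le
      obtain ⟨e3, e4⟩ := hr x z h hx.1.2 hz.le
      rw [e1, e3] at heq
      obtain ⟨h1, h2⟩ := ph_inj S a 0 h (by linarith [hx.1.2]) h' (by linarith [hx'.1.2]) (hp_inj S heq)
      rw [h1, h2]
  · obtain ⟨ε2, hε2, hε2', hl⟩ := side_left S a hn hR hδ N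
    refine ⟨min ε1 ε2, lt_min hε1 hε2, (min_le_left _ _).trans hε1', ?_⟩
    rintro ⟨x, z⟩ ⟨hx, hz⟩ ⟨x', z'⟩ ⟨hx', hz'⟩ heq
    simp only at hx hz hx' hz'
    wlog hle : x ≤ x' generalizing x z x' z'
    · exact (this x' z' hx' hz' x z hx hz heq.symm (by linarith)).symm
    rw [lt_min_iff, abs_lt, abs_lt] at hx hx'
    rcases lt_trichotomy x 0 with h | h | h
    · obtain ⟨f1, f2⟩ := hl x z h hx.2.1 hz.le
      rcases lt_trichotomy x' 0 with h' | h' | h'
      · obtain ⟨f3, f4⟩ := hl x' z' h' hx'.2.1 hz'.le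
        rw [f1, f3] at heq
        obtain ⟨h1, h2⟩ := ph_inj S a (n - 1) (by linarith [hx.2.1]) (by linarith) (by linarith [hx'.2.1])
          (by linarith) (hp_inj S heq)
        rw [h2, show x = x' by linarith]
      · subst h'
        rw [chi_center, f1] at heq
        exact absurd heq (hp_ne_lp S)
      · obtain ⟨e1, e2⟩ := hr x' z' h' hx'.1.2 hz'.le
        rw [e1, f1] at heq
        have := hp_inj S heq
        rw [this] at f2
        exact absurd e2 (hsep' _ f2)
    · subst h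
      rcases hle.lt_or_eq with h' | h'
      · obtain ⟨e1, e2⟩ := hr x' z' h' hx'.1.2 hz'.le
        rw [e1, chi_center] at heq
        exact absurd heq.symm (hp_ne_lp S)
      · subst h'
        rw [chi_center, chi_center] at heq
        rw [(lp_inj S heq).2.2]
    · have h' : 0 < x' := by linarith
      obtain ⟨e1, e2⟩ := hr x' z' h' hx'.1.2 hz'.le
      obtain ⟨e3, e4⟩ := hr x z h hx.1.2 hz.le
      rw [e1, e3] at heq
      obtain ⟨h1, h2⟩ := ph_inj S a n h (by linarith [hx.1.2]) h' (by linarith [hx'.1.2]) (hp_inj S heq)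
      rw [h1, h2]

end Pool.Agent.Helper46.PC
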