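import Pool.Agent.Helper46.PC.Rec
import Pool.Agent.Helper46.PC.Geo
import Pool.Agent.Helper46.PC.Atlas

/-!
The surface attached to a system of lines: points, neighbourhood filters, local parametrisations.
-/

set_option autoImplicit false

namespace Pool.Agent.Helper46.PC

open Set Filter Topology

/-- points: the half-plane (coordinates `(y, log height)`) and the lines `(a, n) × ℝ`. -/
def Mt (S : Sys) : Type := (ℝ × ℝ) ⊕ (S.A × ℕ × ℝ)

variable (S : Sys)

/-- a half-plane point -/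
def hp (p : ℝ × ℝ) : Mt S := Sum.inl p

/-- a line point -/
def lp (a : S.A) (n : ℕ) (z : ℝ) : Mt S := Sum.inr (a, n, z)

lemma hp_inj {p q : ℝ × ℝ} (h : hp S p = hp S q) : p = q := Sum.inl_injective h

lemma lp_inj {a b : S.A} {n m : ℕ} {z w : ℝ} (h : lp S a n z = lp S b m w) : a = b ∧ n = m ∧ z = w := by
  have := Sum.inr_injective h
  simp only [Prod.mk.injEq] at this
  exact this

lemma hp_ne_lp {p : ℝ × ℝ} {a : S.A} {n : ℕ} {z : ℝ} : hp S p ≠ lp S a n z := by
  intro h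
  exact absurd h (by simp [hp, lp])

/-- parametrisation of the half-plane along the line `(a, n)` -/
noncomputable def ph (a : S.A) (n : ℕ) : ℝ × ℝ → ℝ × ℝ := Phi (S.e a n false) (S.D a n)

open Classical in
/-- the immersed strip -/
noncomputable def Psi (a : S.A) (p : ℝ × ℝ) : Mt S :=
  if p.1 = (⌊p.1⌋₊ : ℝ) then lp S a ⌊p.1⌋₊ p.2 else hp S (ph S a ⌊p.1⌋₊ (p.1 - ⌊p.1⌋₊, p.2))

/-- change of the coordinate near infinity -/
noncomputable def tau (p : ℝ × ℝ) : ℝ × ℝ := (if 0 ≤ p.1 then p.1 else -1 / p.1 - 1, p.2)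

/-- centered parametrisations near the lines -/
noncomputable def chi (a : S.A) (n : ℕ) (p : ℝ × ℝ) : Mt S :=
  if n = 0 then Psi S a (tau p) else Psi S a ((n : ℝ) + p.1, p.2)

/-- the neighbourhood filters -/
noncomputable def nb : Mt S → Filter (Mt S)
  | Sum.inl p => map (hp S) (𝓝 p)
  | Sum.inr (a, n, z) => map (chi S a n) (𝓝 (0, z))

lemma nb_hp (p : ℝ × ℝ) : nb S (hp S p) = map (hp S) (𝓝 p) := rfl
lemma nb_lp (a : S.A) (n : ℕ) (z : ℝ) : nb S (lp S a n z) = map (chi S a n) (𝓝 (0, z)) := rfl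

lemma Psi_int (a : S.A) (n : ℕ) (z : ℝ) : Psi S a ((n : ℝ), z) = lp S a n z := by
  simp [Psi]

lemma Psi_frac (a : S.A) (n : ℕ) {T : ℝ} (h1 : (n : ℝ) < T) (h2 : T < n + 1) (z : ℝ) :
    Psi S a (T, z) = hp S (ph S a n (T - n, z)) := by
  have hf : ⌊T⌋₊ = n := by
    rw [Nat.floor_eq_iff (by have : (0 : ℝ) ≤ n := Nat.cast_nonneg n; linarith)]
    exact ⟨h1.le, h2⟩
  unfold Psi
  simp only [hf]
  rw [if_neg (by linarith : ¬ T = (n : ℝ))]

lemma ph_map (a : S.A) (n : ℕ) {t z : ℝ} (h : 0 < t) (h1 : t < 1) :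
    map (ph S a n) (𝓝 (t, z)) = 𝓝 (ph S a n (t, z)) :=
  Phi_map (S.D_pos a n) h h1

lemma ph_inj (a : S.A) (n : ℕ) {t z t' z' : ℝ} (h : 0 < t) (h1 : t < 1) (h' : 0 < t') (h1' : t' < 1)
    (heq : ph S a n (t, z) = ph S a n (t', z')) : t = t' ∧ z = z' := by
  have e1 := Theta_Phi (e := S.e a n false) (S.D_pos a n) (p := (t, z)) h h1
  have e2 := Theta_Phi (e := S.e a n false) (S.D_pos a n) (p := (t', z')) h' h1'
  have e3 : (t, z) = (t', z') := by
    rw [← e1, ← e2]; unfold ph at heq; rw [heq]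
  simpa using e3

lemma shift_map (c : ℝ) (x z : ℝ) : map (fun p : ℝ × ℝ => (c + p.1, p.2)) (𝓝 (x, z)) = 𝓝 (c + x, z) := by
  apply map_nhds_of_inverse (g := fun p : ℝ × ℝ => (p.1 - c, p.2))
  · have : Continuous (fun p : ℝ × ℝ => (c + p.1, p.2)) := by fun_prop
    exact this.tendsto (x, z)
  · have h : Continuous (fun p : ℝ × ℝ => (p.1 - c, p.2)) := by fun_prop
    have := h.tendsto (c + x, z)
    simpa using this
  · exact Eventually.of_forall (fun p => by simp)

/-- exhaustive description of a positive real -/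
lemma pos_cases {T : ℝ} (hT : 0 < T) :
    (∃ n : ℕ, 0 < n ∧ T = n) ∨ (∃ n : ℕ, (n : ℝ) < T ∧ T < n + 1) := by
  have h1 := Nat.floor_le hT.le
  have h2 := Nat.lt_floor_add_one T
  rcases h1.lt_or_eq with h3 | h3
  · exact Or.inr ⟨⌊T⌋₊, h3, h2⟩
  · left
    refine ⟨⌊T⌋₊, ?_, h3.symm⟩
    rw [← h3] at hT
    exact_mod_cast hT

lemma Psi_map (a : S.A) {T : ℝ} (hT : 0 < T) (z : ℝ) : map (Psi S a) (𝓝 (T, z)) = nb S (Psi S a (T, z)) := by
  rcases pos_cases hT with ⟨n, hn, rfl⟩ | ⟨n, h1, h2⟩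
  · rw [Psi_int, nb_lp]
    have h3 : chi S a n = Psi S a ∘ (fun p : ℝ × ℝ => ((n : ℝ) + p.1, p.2)) := by
      funext p
      simp [chi, hn.ne']
    rw [h3, ← Filter.map_map, shift_map]
    simp
  · rw [Psi_frac S a n h1 h2, nb_hp, ← ph_map S a n (by linarith) (by linarith)]
    rw [Filter.map_map]
    have h3 : (-(n : ℝ) + T, z) = (T - n, z) := by ring_nf
    rw [← h3, ← shift_map (-(n : ℝ)) T z, Filter.map_map]
    apply Filter.map_congr
    have h4 : ∀ᶠ p : ℝ × ℝ in 𝓝 (T, z), (n : ℝ) < p.1 ∧ p.1 < n + 1 := by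
      have c1 : Tendsto (fun p : ℝ × ℝ => p.1) (𝓝 (T, z)) (𝓝 T) := continuous_fst.tendsto (T, z)
      exact (c1.eventually (lt_mem_nhds h1)).and (c1.eventually (gt_mem_nhds h2))
    filter_upwards [h4] with p hp'
    obtain ⟨T', z'⟩ := p
    simp only [Function.comp]
    rw [Psi_frac S a n hp'.1 hp'.2]
    congr 2
    ring_nf

lemma tau_map {x : ℝ} (hx : x ≠ 0) (z : ℝ) : map tau (𝓝 (x, z)) = 𝓝 (tau (x, z)) := by
  rcases lt_or_gt_of_ne hx with h | h
  · have e0 : tau (x, z) = (-1 / x - 1, z) := by simp [tau, h.not_ge]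
    have hpos : 0 < -1 / x := div_pos_of_neg_of_neg (by norm_num) h
    rw [e0]
    apply map_nhds_of_inverse (g := fun p : ℝ × ℝ => (-1 / (p.1 + 1), p.2))
    · have h1 : ∀ᶠ p : ℝ × ℝ in 𝓝 (x, z), p.1 < 0 :=
        (continuous_fst.tendsto (x, z)).eventually (gt_mem_nhds h)
      have h2 : (fun p : ℝ × ℝ => (-1 / p.1 - 1, p.2)) =ᶠ[𝓝 (x, z)] tau := by
        filter_upwards [h1] with p hp'
        simp [tau, hp'.not_ge]
      refine Tendsto.congr' h2 ?_
      have h3 : ContinuousAt (fun p : ℝ × ℝ => (-1 / p.1 - 1, p.2)) (x, z) := by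
        apply ContinuousAt.prodMk _ continuousAt_snd
        apply ContinuousAt.sub _ continuousAt_const
        exact ContinuousAt.div continuousAt_const continuousAt_fst hx
      exact h3
    · have h3 : ContinuousAt (fun p : ℝ × ℝ => (-1 / (p.1 + 1), p.2)) (-1 / x - 1, z) := by
        apply ContinuousAt.prodMk _ continuousAt_snd
        apply ContinuousAt.div continuousAt_const (by fun_prop)
        simp only
        linarith
      have h4 : (fun p : ℝ × ℝ => (-1 / (p.1 + 1), p.2)) (-1 / x - 1, z) = (x, z) := by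
        simp only [sub_add_cancel, Prod.mk.injEq, and_true]
        field_simp
      have h5 : Tendsto (fun p : ℝ × ℝ => (-1 / (p.1 + 1), p.2)) (𝓝 (-1 / x - 1, z))
        (𝓝 ((fun p : ℝ × ℝ => (-1 / (p.1 + 1), p.2)) (-1 / x - 1, z))) := h3
      rw [h4] at h5
      exact h5
    · have h1 : ∀ᶠ p : ℝ × ℝ in 𝓝 (-1 / x - 1, z), -1 < p.1 :=
        (continuous_fst.tendsto (-1 / x - 1, z)).eventually (lt_mem_nhds (by linarith))
      filter_upwards [h1] with p hp'
      have h2 : 0 < p.1 + 1 := by linarith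
      have h3 : -1 / (p.1 + 1) < 0 := div_neg_of_neg_of_pos (by norm_num) h2
      simp only [tau, h3.not_ge, if_false]
      ext
      · simp only
        field_simp
        ring
      · rfl
  · have e0 : tau (x, z) = (x, z) := by simp [tau, h.le]
    rw [e0]
    have h1 : ∀ᶠ p : ℝ × ℝ in 𝓝 (x, z), 0 < p.1 :=
      (continuous_fst.tendsto (x, z)).eventually (lt_mem_nhds h)
    have h2 : tau =ᶠ[𝓝 (x, z)] id := by
      filter_upwards [h1] with p hp'
      simp [tau, hp'.le]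
    rw [Filter.map_congr h2, Filter.map_id]

lemma tau_pos {x : ℝ} (hx : x ≠ 0) (hx1 : -1 < x) (z : ℝ) : 0 < (tau (x, z)).1 := by
  rcases lt_or_gt_of_ne hx with h | h
  · have e0 : tau (x, z) = (-1 / x - 1, z) := by simp [tau, h.not_ge]
    rw [e0]
    have : 1 < -1 / x := by
      rw [lt_div_iff_of_neg h]; linarith
    simp only
    linarith
  · simp [tau, h.le, h]

lemma chi_zero_eq (a : S.A) : chi S a 0 = Psi S a ∘ tau := by
  funext p; simp [chi]

lemma chi_succ_eq (a : S.A) {n : ℕ} (hn : 0 < n) :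
    chi S a n = Psi S a ∘ (fun p : ℝ × ℝ => ((n : ℝ) + p.1, p.2)) := by
  funext p
  simp [chi, hn.ne']

lemma chi_center (a : S.A) (n : ℕ) (z : ℝ) : chi S a n (0, z) = lp S a n z := by
  rcases Nat.eq_zero_or_pos n with rfl | hn
  · rw [chi_zero_eq]
    have := Psi_int S a 0 z
    simpa [tau] using this
  · rw [chi_succ_eq S a hn]
    simp [Psi_int]

lemma chi_map (a : S.A) (n : ℕ) {x : ℝ} (hx : -1 < x) (z : ℝ) :
    map (chi S a n) (𝓝 (x, z)) = nb S (chi S a n (x, z)) := by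
  by_cases hx0 : x = 0
  · subst hx0
    rw [chi_center, nb_lp]
  · rcases Nat.eq_zero_or_pos n with rfl | hn
    · rw [chi_zero_eq, ← Filter.map_map, tau_map hx0]
      exact Psi_map S a (tau_pos hx0 hx z) z
    · rw [chi_succ_eq S a hn, ← Filter.map_map, shift_map]
      have : (1 : ℝ) ≤ n := by exact_mod_cast hn
      exact Psi_map S a (by linarith) z

/-- the lateral coordinate is preserved -/
lemma chi_lateral (a : S.A) (n : ℕ) (p : ℝ × ℝ) {b : S.A} {m : ℕ} {w : ℝ} (h : chi S a n p = lp S b m w) :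
    w = p.2 ∧ b = a := by
  unfold chi Psi at h
  split_ifs at h
  · have := lp_inj S h; exact ⟨by rw [← this.2.2]; rfl, this.1.symm⟩
  · exact absurd h (hp_ne_lp S)
  · have := lp_inj S h; exact ⟨this.2.2.symm, this.1.symm⟩
  · exact absurd h (hp_ne_lp S)

end Pool.Agent.Helper46.PC
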